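import Pool.Agent.MP_d802e4_co.Mg.Num

-- part MP_d802e4_co.Est
section

/-!
Probability estimates for the process with random clocks and colours.
-/

set_option autoImplicit false

namespace Pool.Agent.MP_d802e4_co

open Finset

noncomputable section

abbrev Lab := Fin 200 × Co

/-- law of the label of a vertex -/
def pl (x : Lab) : ℝ := (sa x.1.val - sa (x.1.val + 1)) / 3

lemma pl_tail (a : ℕ) (ha : a ≤ 200) : ∑ x : Lab, pl x * ind (a ≤ x.1.val) = sa a := by
  rw [Fintype.sum_prod_type]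
  have h1 : ∀ i : Fin 200, ∑ c : Co, pl (i, c) * ind (a ≤ i.val) =
      (fun i : ℕ => if a ≤ i then sa i - sa (i + 1) else 0) i.val := by
    intro i
    simp only [pl, sum_const, card_univ, ZMod.card, nsmul_eq_mul]
    split_ifs with h
    · rw [ind_pos h]; push_cast; ring
    · rw [ind_neg h]; ring
  simp only [h1]
  rw [Fin.sum_univ_eq_sum_range (fun i : ℕ => if a ≤ i then sa i - sa (i + 1) else 0) 200]
  have key : ∀ n, ∑ i ∈ range n, (if a ≤ i then sa i - sa (i + 1) else 0) =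
      if a ≤ n then sa a - sa n else 0 := by
    intro n
    induction n with
    | zero => by_cases h : a = 0 <;> simp [h]
    | succ n ih =>
      rw [sum_range_succ, ih]
      by_cases h : a ≤ n
      · rw [if_pos h, if_pos h, if_pos (by omega)]; ring
      · by_cases h' : a = n + 1
        · subst h'; simp
        · rw [if_neg h, if_neg h, if_neg (by omega)]; ring
  rw [key, if_pos ha, sa_end, sub_zero]

lemma pl_isP : IsP pl where
  nonneg x := div_nonneg (sub_nonneg.2 (sa_anti x.1.2)) (by norm_num)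
  sum := by
    have := pl_tail 0 (by norm_num)
    simpa [ind_pos, sa_zero] using this

variable {V : Type*}

/-- clocks -/
def ρo (N : ℕ) (cls : V → ℕ) (ω : V → Lab) : V → ℕ := fun v => (ω v).1.val * N + cls v

/-- preferred colours -/
def χo (ω : V → Lab) : V → Co := fun v => (ω v).2

/-- colour shift of labels -/
def shiftLab (t : Co) : Lab ≃ Lab := Equiv.prodCongr (Equiv.refl _) (Equiv.addRight t)

lemma ρo_shift (N : ℕ) (cls : V → ℕ) (ω : V → Lab) (t : Co) :
    ρo N cls (fun v => shiftLab t (ω v)) = ρo N cls ω := rfl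

lemma χo_shift (ω : V → Lab) (t : Co) :
    χo (fun v => shiftLab t (ω v)) = fun v => χo ω v + t := rfl

variable {G : SimpleGraph V} {K L N : ℕ} {cls : V → ℕ}

lemma dep_col (S W : Set V) (n : ℕ) :
    Dep S (fun ω : V → Lab => col G K S W (ρo N cls ω) (χo ω) n) := by
  intro ω ω' h
  exact col_dep (fun v hv _ => by simp only [ρo, χo, h v hv, and_self]) n

lemma le_ρo (hc : ∀ v, cls v < N) (ω : V → Lab) (v : V) (a : ℕ) :
    a * N ≤ ρo N cls ω v ↔ a ≤ (ω v).1.val := by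
  unfold ρo
  constructor
  · intro h
    by_contra hlt
    have h1 : ((ω v).1.val + 1) * N ≤ a * N := Nat.mul_le_mul_right _ (by omega)
    have := hc v
    rw [add_mul] at h1
    omega
  · intro h
    exact (Nat.mul_le_mul_right N h).trans (Nat.le_add_right _ _)

lemma ρo_lt (hc : ∀ v, cls v < N) (ω : V → Lab) (v : V) : ρo N cls ω v < 200 * N := by
  by_contra h
  have := (le_ρo hc ω v 200).1 (by omega)
  have := (ω v).1.2
  omega

variable [Fintype V] [DecidableEq V]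

lemma Pr_third (F : Co → (V → Lab) → Prop)
    (hs : ∀ t m ω, F (m + t) (fun v => shiftLab t (ω v)) ↔ F m ω)
    (hx : ∀ ω m m', F m ω → F m' ω → m = m') (m : Co) :
    Pr pl (F m) = Pr pl (fun ω => ∃ m, F m ω) / 3 := by
  have h1 : ∀ m', Pr pl (F m') = Pr pl (F m) := by
    intro m'
    have := Ex_shift (V := V) (p := pl) (shiftLab (m' - m)) (fun _ => rfl) (fun ω => ind (F m' ω))
    unfold Pr
    rw [← this]
    refine Ex_congr fun ω => ind_congr ?_
    rw [← hs (m' - m) m ω]; simp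
  have h2 : Pr pl (fun ω => ∃ m, F m ω) = ∑ m' : Co, Pr pl (F m') := by
    unfold Pr
    rw [← Ex_sum]
    refine Ex_congr fun ω => ?_
    by_cases h : ∃ m, F m ω
    · obtain ⟨m0, h0⟩ := h
      rw [ind_pos ⟨m0, h0⟩, sum_eq_single m0, ind_pos h0]
      · exact fun b _ hb => ind_neg fun h => hb (hx ω _ _ h h0)
      · simp
    · rw [ind_neg h, sum_eq_zero fun b _ => ind_neg fun h' => h ⟨b, h'⟩]
  rw [h2]
  simp only [h1, sum_const, card_univ, ZMod.card, nsmul_eq_mul]
  push_cast; ring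

/-- standing assumptions for the estimates -/
structure Ctx (G : SimpleGraph V) (K L N : ℕ) (cls : V → ℕ) (S0 : Set V) : Prop where
  h4 : ∀ v, (nb G v).card = 4
  up : UP G K
  cls_lt : ∀ v, cls v < N
  sep : ∀ x x', cls x = cls x' → Near G (2 * K) x x' → x = x'
  ac : AC G S0
  hL : 1 ≤ L
  hK : 3 * L + 1 ≤ K

variable {S0 : Set V}

omit [DecidableEq V] in
lemma Ctx.nice (h : Ctx G K L N cls S0) (ω : V → Lab) : Nice G K (ρo N cls ω) := by
  refine ⟨h.up, fun x x' he => h.sep x x' ?_⟩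
  have := congrArg (· % N) he
  simpa [ρo, Nat.mod_eq_of_lt (h.cls_lt _)] using this

/-- probability that `u` is uncoloured at time `n` in the free process on `S` -/
def xx (G : SimpleGraph V) (K N : ℕ) (cls : V → ℕ) (S : Set V) (u : V) (n : ℕ) : ℝ :=
  Pr pl fun ω => Unc (col G K S ∅ (ρo N cls ω) (χo ω) n) u

lemma xx_nonneg (S : Set V) (u : V) (n : ℕ) : 0 ≤ xx G K N cls S u n := Pr_nonneg pl_isP _
lemma xx_le_one (S : Set V) (u : V) (n : ℕ) : xx G K N cls S u n ≤ 1 := Pr_le_one pl_isP _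

lemma Pr_only (h : Ctx G K L N cls S0) (S : Set V) (u : V) (n : ℕ) (c : Co) :
    Pr pl (fun ω => ∀ c', col G K S ∅ (ρo N cls ω) (χo ω) n u c' → c' = c) =
      xx G K N cls S u n + (1 - xx G K N cls S u n) / 3 := by
  have h1 := Pr_third (fun m ω => col G K S ∅ (ρo N cls ω) (χo ω) n u m)
    (fun t m ω => by rw [ρo_shift, χo_shift]; exact col_shift t n u m)
    (fun ω m m' => (col_inv (h.nice ω) n).uniq u m m') c
  have h2 : Pr pl (fun ω => ∃ m, col G K S ∅ (ρo N cls ω) (χo ω) n u m) =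
      1 - xx G K N cls S u n := by
    unfold xx Pr
    rw [← Ex_const (V := V) pl_isP 1, ← Ex_sub]
    refine Ex_congr fun ω => ?_
    rw [← ind_not]
    exact ind_congr (by simp [Unc])
  rw [← h2, ← h1]
  unfold xx Pr
  rw [← Ex_add]
  refine Ex_congr fun ω => ?_
  by_cases hu : Unc (col G K S ∅ (ρo N cls ω) (χo ω) n) u
  · rw [ind_pos hu, ind_neg (hu c), ind_pos fun c' hc => absurd hc (hu c')]; simp
  · rw [ind_neg hu, zero_add]
    obtain ⟨m, hm⟩ : ∃ m, col G K S ∅ (ρo N cls ω) (χo ω) n u m := by simpa [Unc] using hu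
    exact ind_congr ⟨fun hc => hc m hm ▸ hm, fun hc c' hc' =>
      (col_inv (h.nice ω) n).uniq u _ _ hc' hc⟩

lemma Pr_allUnc {v : V} {C : Finset V} {A : V → Set V} {T : Set V} (hS : IsStar G v C A T)
    (n : ℕ) : Pr pl (fun ω => ∀ w ∈ C, Unc (col G K (A w) ∅ (ρo N cls ω) (χo ω) n) w) =
      ∏ w ∈ C, xx G K N cls (A w) w n :=
  Pr_forall pl_isP C A _ (fun w _ => (dep_col (A w) ∅ n).comp fun σ => Unc σ w) hS.disj

lemma Pr_oneCol (h : Ctx G K L N cls S0) {v : V} {C : Finset V} {A : V → Set V} {T : Set V}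
    (hS : IsStar G v C A T) (n : ℕ) :
    Pr pl (fun ω => OneCol G K C A (ρo N cls ω) (χo ω) n) =
      3 * ∏ w ∈ C, (xx G K N cls (A w) w n + (1 - xx G K N cls (A w) w n) / 3) -
        2 * ∏ w ∈ C, xx G K N cls (A w) w n := by
  have h1 : ∀ c : Co, Pr pl (fun ω => ∀ w ∈ C, ∀ c',
      col G K (A w) ∅ (ρo N cls ω) (χo ω) n w c' → c' = c) =
      ∏ w ∈ C, (xx G K N cls (A w) w n + (1 - xx G K N cls (A w) w n) / 3) := by
    intro c
    rw [Pr_forall pl_isP C A _
      (fun w _ => (dep_col (A w) ∅ n).comp fun σ => ∀ c', σ w c' → c' = c) hS.disj]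
    exact prod_congr rfl fun w _ => Pr_only h _ _ _ _
  have h2 : (3 : ℝ) * ∏ w ∈ C, (xx G K N cls (A w) w n + (1 - xx G K N cls (A w) w n) / 3) =
      ∑ c : Co, Pr pl (fun ω => ∀ w ∈ C, ∀ c',
        col G K (A w) ∅ (ρo N cls ω) (χo ω) n w c' → c' = c) := by
    simp only [h1, sum_const, card_univ, ZMod.card, nsmul_eq_mul]; norm_num
  rw [h2, ← Pr_allUnc hS]
  unfold Pr
  rw [← Ex_sum, ← Ex_smul, ← Ex_sub]
  refine Ex_congr fun ω => ?_
  by_cases hu : ∀ w ∈ C, Unc (col G K (A w) ∅ (ρo N cls ω) (χo ω) n) w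
  · rw [ind_pos hu, ind_pos (P := OneCol _ _ _ _ _ _ _) fun w hw _ _ c _ hc => absurd hc (hu w hw c),
      sum_congr rfl fun c _ => ind_pos fun w hw c' hc => absurd hc (hu w hw c')]
    simp only [sum_const, card_univ, ZMod.card, nsmul_eq_mul]; norm_num
  · rw [ind_neg hu]
    obtain ⟨w0, hw0, c0, hc0⟩ : ∃ w ∈ C, ∃ c, col G K (A w) ∅ (ρo N cls ω) (χo ω) n w c := by
      simpa [Unc] using hu
    rw [sum_eq_single c0, mul_zero, sub_zero]
    · exact ind_congr ⟨fun h w hw c' hc => h w hw w0 hw0 _ _ hc hc0,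
        fun h w hw w' hw' c c' h1 h2 => (h w hw c h1).trans (h w' hw' c' h2).symm⟩
    · exact fun b _ hb => ind_neg fun h => hb (h w0 hw0 c0 hc0).symm
    · simp

omit [Fintype V] [DecidableEq V] in
lemma dep_oneCol (C : Finset V) (A : V → Set V) (n : ℕ) :
    Dep (⋃ w ∈ C, A w) (fun ω : V → Lab => OneCol G K C A (ρo N cls ω) (χo ω) n) := by
  intro ω ω' h
  have : ∀ w ∈ C, col G K (A w) ∅ (ρo N cls ω) (χo ω) n = col G K (A w) ∅ (ρo N cls ω') (χo ω') n :=
    fun w hw => dep_col (A w) ∅ n ω ω' fun u hu => h u (Set.mem_biUnion hw hu)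
  apply propext
  unfold OneCol
  refine forall_congr' fun w => forall_congr' fun hw => forall_congr' fun w' =>
    forall_congr' fun hw' => ?_
  rw [this w hw, this w' hw']

lemma Pr_clock (h : Ctx G K L N cls S0) {v : V} {C : Finset V} {A : V → Set V} {T : Set V}
    (hS : IsStar G v C A T) {a : ℕ} (ha : a ≤ 200) {E : (V → Lab) → Prop}
    (hE : Dep (⋃ w ∈ C, A w) E) :
    Pr pl (fun ω => a * N ≤ ρo N cls ω v ∧ E ω) = sa a * Pr pl E := by
  rw [Pr_and pl_isP (A := {v}) (fun ω ω' hω => by simp only [ρo, hω v rfl]) hE (by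
    simp only [Set.disjoint_iUnion_right, Set.disjoint_singleton_left]
    exact hS.vnot)]
  congr 1
  rw [Pr_congr fun ω => le_ρo h.cls_lt ω v a, ← pl_tail a ha]
  exact Ex_coord pl_isP v fun x => ind (a ≤ x.1.val)

/-- the ball of radius `d` around `v` lies in `S0` -/
def Deep (G : SimpleGraph V) (S0 : Set V) (d : ℕ) (v : V) : Prop := ∀ z, Near G d v z → z ∈ S0

omit [Fintype V] [DecidableEq V] in
lemma Deep.mono {d d' : ℕ} {v : V} (h : Deep G S0 d v) (hd : d' ≤ d) : Deep G S0 d' v :=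
  fun z hz => h z (hz.mono hd)

omit [Fintype V] [DecidableEq V] in
lemma Deep.near {d r : ℕ} {v w : V} (h : Deep G S0 (r + d) v) (hw : Near G r v w) :
    Deep G S0 d w := fun z hz => h z (hw.trans hz)

omit [Fintype V] [DecidableEq V] in
lemma Deep.self {d : ℕ} {v : V} (h : Deep G S0 d v) : v ∈ S0 := h v (near_refl _ _)

omit [Fintype V] [DecidableEq V] in
lemma Deep.adj {d : ℕ} {v w : V} (h : Deep G S0 (d + 1) v) (hw : G.Adj v w) : Deep G S0 d w :=
  Deep.near (r := 1) (by rwa [add_comm]) (near_of_adj hw)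

/-- long chains before time `hz` are unlikely at vertices of depth `d0` -/
def Claim (G : SimpleGraph V) (K L N : ℕ) (cls : V → ℕ) (S0 : Set V) (η : ℝ) (hz d0 : ℕ) : Prop :=
  ∀ (v : V) (C : Finset V), (∀ w ∈ C, G.Adj v w) → Deep G S0 d0 v →
    Pr pl (fun ω => ∃ n, n < hz ∧ Long G K L (St G S0 v C) v (ρo N cls ω) (χo ω) n) ≤ η

lemma Pr_qt3 (h : Ctx G K L N cls S0) {p q : V} (ha : G.Adj p q) (hq : Deep G S0 1 q) {a : ℕ}
    (ha2 : a ≤ 200) : ∃ w1 w2 w3, G.Adj q w1 ∧ G.Adj q w2 ∧ G.Adj q w3 ∧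
      Pr pl (fun ω => Qt G K q ((nb G q).erase p) (Br G S0 q) (ρo N cls ω) (χo ω) (a * N)) =
        sa a * G3 (xx G K N cls (Br G S0 q w1) w1 (a * N)) (xx G K N cls (Br G S0 q w2) w2 (a * N))
          (xx G K N cls (Br G S0 q w3) w3 (a * N)) := by
  have hS := isStar h.ac (C := (nb G q).erase p) hq.self fun w hw =>
    ⟨mem_nb.1 (mem_erase.1 hw).2, hq w (near_of_adj (mem_nb.1 (mem_erase.1 hw).2))⟩
  have hc : ((nb G q).erase p).card = 3 := by rw [card_erase_of_mem (mem_nb.2 ha.symm), h.h4]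
  obtain ⟨w1, w2, w3, n1, n2, n3, e⟩ := card_eq_three.1 hc
  refine ⟨w1, w2, w3, hS.adj _ (by simp [e]), hS.adj _ (by simp [e]), hS.adj _ (by simp [e]), ?_⟩
  unfold Qt
  rw [Pr_clock h hS ha2 (dep_oneCol _ _ _), Pr_oneCol h hS, e]
  simp only [G3, prod_insert (show w1 ∉ ({w2, w3} : Finset V) by simp [n1, n2]), prod_pair n3]

lemma xx_lower (h : Ctx G K L N cls S0) {a : ℕ} (ha : a ≤ 200) : ∀ (i : ℕ) (p q : V), G.Adj p q →
    Deep G S0 i q → min (xa a - 1 / 200) (i / 10000) ≤ xx G K N cls (Br G S0 p q) q (a * N) := by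
  intro i
  induction i with
  | zero => intro p q _ _; exact (min_le_right _ _).trans (by simpa using xx_nonneg _ _ _)
  | succ i ih =>
    intro p q hpq hq
    set l := min (xa a - 1 / 200) ((i : ℝ) / 10000) with hl
    by_cases hl0 : 0 ≤ l
    swap
    · have : xa a - 1 / 200 < 0 := by
        rcases min_cases (xa a - 1 / 200) ((i : ℝ) / 10000) with h1 | h1
        · rw [← h1.1]; exact not_le.1 hl0
        · exact absurd (by rw [hl, h1.1]; positivity) hl0
      exact (min_le_left _ _).trans (this.le.trans (xx_nonneg _ _ _))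
    have hq1 : Deep G S0 1 q := hq.mono (by omega)
    obtain ⟨w1, w2, w3, a1, a2, a3, e⟩ := Pr_qt3 h hpq hq1 ha
    have hS := isStar h.ac (C := (nb G q).erase p) hq.self fun w hw =>
      ⟨mem_nb.1 (mem_erase.1 hw).2, hq1 w (near_of_adj (mem_nb.1 (mem_erase.1 hw).2))⟩
    have h1 := Pr_mono pl_isP fun ω : V → Lab =>
      qt_unc (K := K) (ρ := ρo N cls ω) (χ := χo ω) hS (a * N)
    rw [e, ← Br_eq h.ac hpq hq.self fun w hw => hq1 w (near_of_adj hw)] at h1
    have h2 := G3_mono (ih q w1 a1 (hq.adj a1)) (ih q w2 a2 (hq.adj a2)) (ih q w3 a3 (hq.adj a3))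
      hl0 hl0 hl0 (xx_le_one _ _ _) (xx_le_one _ _ _) (xx_le_one _ _ _)
    rw [G3_diag] at h2
    have h3 := sa_lower ha hl0 (min_le_left _ _)
    have h4 := mul_le_mul_of_nonneg_left h2 (sa_nonneg ha)
    refine le_trans ?_ (h3.trans (h4.trans h1))
    push_cast
    rcases min_cases (xa a - 1 / 200) ((i : ℝ) / 10000) with h5 | h5
    · rw [hl, h5.1]; linarith [min_le_left (xa a - 1 / 200) (((i : ℝ) + 1) / 10000)]
    · rw [hl, h5.1]; linarith [min_le_right (xa a - 1 / 200) (((i : ℝ) + 1) / 10000)]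

lemma xx_upper (h : Ctx G K L N cls S0) {η : ℝ} (hη : η ≤ 1 / 10000) {hz d0 : ℕ}
    (hC : Claim G K L N cls S0 η hz d0) {a : ℕ} (ha : a ≤ 200) (haz : a * N ≤ hz) :
    ∀ (i : ℕ) (p q : V), G.Adj p q → Deep G S0 (d0 + i) q →
      xx G K N cls (Br G S0 p q) q (a * N) ≤ max (xa a + 1 / 200) (1 - i / 10000) := by
  intro i
  induction i with
  | zero => intro p q _ _; exact le_trans (by simpa using xx_le_one _ _ _) (le_max_right _ _)
  | succ i ih =>
    intro p q hpq hq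
    set u := max (xa a + 1 / 200) (1 - (i : ℝ) / 10000) with hu
    by_cases hu1 : u ≤ 1
    swap
    · have : 1 < xa a + 1 / 200 := by
        rcases max_cases (xa a + 1 / 200) (1 - (i : ℝ) / 10000) with h1 | h1
        · rw [← h1.1]; exact not_le.1 hu1
        · refine absurd ?_ hu1
          rw [hu, h1.1]
          have : (0 : ℝ) ≤ (i : ℝ) / 10000 := by positivity
          linarith
      exact (xx_le_one _ _ _).trans (this.le.trans (le_max_left _ _))
    have hq1 : Deep G S0 1 q := hq.mono (by omega)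
    obtain ⟨w1, w2, w3, a1, a2, a3, e⟩ := Pr_qt3 h hpq hq1 ha
    have hS := isStar h.ac (C := (nb G q).erase p) hq.self fun w hw =>
      ⟨mem_nb.1 (mem_erase.1 hw).2, hq1 w (near_of_adj (mem_nb.1 (mem_erase.1 hw).2))⟩
    have h0 := hC q ((nb G q).erase p) hS.adj (hq.mono (by omega))
    have h1 := (Pr_mono pl_isP fun ω : V → Lab => fun hv =>
      (unc_qt (χ := χo ω) (h.nice ω) h.hL h.hK hS (t := a * N) hv).imp id
        (fun ⟨n, h1, h2⟩ => (⟨n, by omega, h2⟩ : ∃ n, n < hz ∧ Long G K L _ q _ _ n))).trans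
      (Pr_or pl_isP _ _)
    rw [e] at h1
    have h2 := G3_mono (ih q w1 a1 (hq.adj a1)) (ih q w2 a2 (hq.adj a2)) (ih q w3 a3 (hq.adj a3))
      (xx_nonneg _ _ _) (xx_nonneg _ _ _) (xx_nonneg _ _ _) hu1 hu1 hu1
    rw [G3_diag] at h2
    have h3 : sa a * gg u ≤ u - 2 / 10000 := sa_upper ha (le_max_left _ (1 - (i : ℝ) / 10000))
    have h4 := mul_le_mul_of_nonneg_left h2 (sa_nonneg ha)
    rw [Br_eq h.ac hpq hq.self fun w hw => hq1 w (near_of_adj hw)]
    refine le_trans h1 ?_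
    push_cast
    rcases max_cases (xa a + 1 / 200) (1 - (i : ℝ) / 10000) with h5 | h5
    · linarith [le_max_left (xa a + 1 / 200) (1 - ((i : ℝ) + 1) / 10000), h5.1]
    · linarith [le_max_right (xa a + 1 / 200) (1 - ((i : ℝ) + 1) / 10000), h5.1]

lemma Pr_reg (h : Ctx G K L N cls S0) {η : ℝ} (hη : η ≤ 1 / 10000) {hz d0 : ℕ}
    (hC : Claim G K L N cls S0 η hz d0) {a : ℕ} (ha : a < 200) (haz : a * N ≤ hz) {v : V}
    {C : Finset V} (hc : C.card = 2) (hadj : ∀ w ∈ C, G.Adj v w) (hv : Deep G S0 (d0 + 10001) v)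
    (m : Co) :
    Pr pl (fun ω => Qt G K v C (Br G S0 v) (ρo N cls ω) (χo ω) (a * N) ∧
      Sees G (col G K (St G S0 v C) {v} (ρo N cls ω) (χo ω) ((a + 1) * N)) v m) ≤ 164 / 1000 := by
  have hS := isStar h.ac (C := C) hv.self fun w hw =>
    ⟨hadj w hw, hv w ((near_of_adj (hadj w hw)).mono (by omega))⟩
  rw [Pr_third (fun m ω => Qt G K v C (Br G S0 v) (ρo N cls ω) (χo ω) (a * N) ∧
      Sees G (col G K (St G S0 v C) {v} (ρo N cls ω) (χo ω) ((a + 1) * N)) v m)]
  · have h1 : Pr pl (fun ω => ∃ m, Qt G K v C (Br G S0 v) (ρo N cls ω) (χo ω) (a * N) ∧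
        Sees G (col G K (St G S0 v C) {v} (ρo N cls ω) (χo ω) ((a + 1) * N)) v m) ≤
        Pr pl (fun ω => a * N ≤ ρo N cls ω v ∧ (OneCol G K C (Br G S0 v) (ρo N cls ω) (χo ω) (a * N) ∧
          ¬ ∀ w ∈ C, Unc (col G K (Br G S0 v w) ∅ (ρo N cls ω) (χo ω) ((a + 1) * N)) w)) := by
      refine Pr_mono pl_isP ?_
      rintro ω ⟨m, hq, z, hz1, hz2⟩
      refine ⟨hq.1, hq.2, fun hu => ?_⟩
      have hzC := hS.nbr (col_mem hz2).1 hz1
      exact hu z hzC m (((first_attempt hS _ (fun w hw _ _ c _ hc => absurd hc (hu w hw c)) z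
        hzC).col z (hS.root z hzC) m).1 hz2)
    have h2 : Pr pl (fun ω => (∀ w ∈ C,
        Unc (col G K (Br G S0 v w) ∅ (ρo N cls ω) (χo ω) ((a + 1) * N)) w) ∧
        OneCol G K C (Br G S0 v) (ρo N cls ω) (χo ω) (a * N)) = Pr pl (fun ω => ∀ w ∈ C,
        Unc (col G K (Br G S0 v w) ∅ (ρo N cls ω) (χo ω) ((a + 1) * N)) w) :=
      Pr_congr fun ω => ⟨fun h => h.1, fun hu => ⟨hu, fun w hw _ _ c _ hc =>
        absurd (col_mono (Nat.mul_le_mul_right N (Nat.le_succ a)) hc) (hu w hw c)⟩⟩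
    rw [Pr_clock h hS ha.le, Pr_split, h2, Pr_oneCol h hS, Pr_allUnc hS] at h1
    · obtain ⟨w1, w2, hne, rfl⟩ := card_eq_two.1 hc
      simp only [prod_pair hne] at h1
      have a1 := hadj w1 (by simp)
      have a2 := hadj w2 (by simp)
      have u1 := xx_upper h hη hC ha.le haz 10000 v w1 a1 (Deep.adj hv a1)
      have u2 := xx_upper h hη hC ha.le haz 10000 v w2 a2 (Deep.adj hv a2)
      have l1 := xx_lower h (show a + 1 ≤ 200 from ha) 10000 v w1 a1
        ((Deep.adj hv a1).mono (by omega))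
      have l2 := xx_lower h (show a + 1 ≤ 200 from ha) 10000 v w2 a2
        ((Deep.adj hv a2).mono (by omega))
      have e1 : max (xa a + 1 / 200) (1 - ((10000 : ℕ) : ℝ) / 10000) = xa a + 1 / 200 :=
        max_eq_left (by have := xa_nonneg ha.le; norm_num; linarith)
      have e2 : min (xa (a + 1) - 1 / 200) (((10000 : ℕ) : ℝ) / 10000) = xa (a + 1) - 1 / 200 :=
        min_eq_left (by have := xa_le_one (a + 1); norm_num; linarith)
      rw [e1] at u1 u2
      rw [e2] at l1 l2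
      have := reg_num ha (xx_nonneg _ _ _) (xx_le_one _ _ _) (xx_nonneg _ _ _) (xx_le_one _ _ _)
        u1 u2 (xx_nonneg _ _ _) (xx_nonneg _ _ _) l1 l2
      linarith
    · intro ω ω' hω
      have e1 := dep_oneCol (G := G) (K := K) (N := N) (cls := cls) C (Br G S0 v) (a * N) ω ω' hω
      simp only at e1 ⊢
      rw [e1]
      congr 2
      apply propext
      refine forall_congr' fun w => forall_congr' fun hw => ?_
      rw [show col G K (Br G S0 v w) ∅ (ρo N cls ω) (χo ω) ((a + 1) * N) = _ from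
        dep_col (Br G S0 v w) ∅ _ ω ω' fun u hu => hω u (Set.mem_biUnion hw hu)]
  · intro t m ω
    rw [ρo_shift, χo_shift]
    refine and_congr (and_congr Iff.rfl ⟨fun h w hw w' hw' c c' h1 h2 => ?_,
      fun h w hw w' hw' c c' h1 h2 => ?_⟩) (exists_congr fun z => and_congr Iff.rfl (col_shift _ _ _ _))
    · exact add_right_cancel (h w hw w' hw' _ _ ((col_shift t _ _ _).2 h1) ((col_shift t _ _ _).2 h2))
    · have := h w hw w' hw' (c - t) (c' - t) ((col_shift t _ _ _).1 (by simpa using h1))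
        ((col_shift t _ _ _).1 (by simpa using h2))
      simpa using this
  · intro ω m m' h1 h2
    exact (col_inv (W := {v}) (h.nice ω) _).one v hS.vT (fun c hc => (col_mem hc).2 rfl) _ _ h1.2 h2.2

end

end Pool.Agent.MP_d802e4_co

end

-- part MP_d802e4_co.Final
section

/-!
Every 4-regular graph of sufficiently large girth is 3-colourable.
-/

set_option autoImplicit false

namespace Pool.Agent.MP_d802e4_co

open Finset

noncomputable section

variable {V : Type*} [Fintype V] [DecidableEq V] {G : SimpleGraph V} {K L N : ℕ} {cls : V → ℕ}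
  {S0 : Set V}

/-- numerical parameters -/
structure Par (L : ℕ) (lam mu η θ : ℝ) : Prop where
  l0 : 0 < lam
  l1 : lam ≤ 1
  hm : mu * lam ^ (4 * 200) = 1
  e0 : 0 ≤ η
  e1 : η ≤ 1 / 10000
  hθ : η * mu + lam + (2 * (164 / 1000) + 9 * (200 : ℕ) * lam) ≤ θ
  hL : 2 * 3 ^ (L + 1) * (mu * θ ^ L) ≤ η

variable {lam mu η θ : ℝ}

lemma Par.m0 (h : Par L lam mu η θ) : 0 ≤ mu := by
  by_contra hc
  push Not at hc
  have := mul_neg_of_neg_of_pos hc (pow_pos h.l0 (4 * 200))
  rw [h.hm] at this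
  linarith

lemma Par.t0 (h : Par L lam mu η θ) : 0 ≤ θ := by
  refine le_trans ?_ h.hθ
  have := h.m0
  have := h.l0
  have := h.e0
  positivity

lemma cat_bound (h : Ctx G K L N cls S0) (hP : Par L lam mu η θ) {hz d0 : ℕ}
    (hC : Claim G K L N cls S0 η hz d0) {f : ℕ → V} {M : ℕ} (hcat : Cat G S0 f (M * L))
    (hd : ∀ j, 1 ≤ j → j ≤ M * L → Deep G S0 (d0 + 10001) (f j)) {E : (V → Lab) → Prop}
    (hE : ∀ ω, E ω → ∀ lo r, 1 ≤ lo → lo + r ≤ M * L + 1 → r ≤ L →
      (∀ j, lo ≤ j → j < lo + r → ¬ badj G K L S0 f (ρo N cls ω) (χo ω) hz j) →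
      Prop_star 200 (Qj G K N S0 f (ρo N cls ω) (χo ω) hz) (Szj G K N S0 f (ρo N cls ω) (χo ω))
        0 lo (lo + r)) :
    Pr pl E ≤ (mu * θ ^ L) ^ M := by
  have hX := Ex_X (k := 200) pl_isP hP.l0.le hP.m0 hP.e0 (show (0 : ℝ) ≤ 164 / 1000 by norm_num)
    (B := fun ω j => badj G K L S0 f (ρo N cls ω) (χo ω) hz j)
    (R := fun ω j a m => Qj G K N S0 f (ρo N cls ω) (χo ω) hz j a ∧
      Szj G K N S0 f (ρo N cls ω) (χo ω) j a m)
    (T := Tj G S0 f) (hi := M * L + 1) ?_ ?_ ?_ ?_ ?_ (M * L) 1 none le_rfl (by omega)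
  · have h1 : Pr pl E ≤ Ex pl fun ω => mu ^ M * X 200 lam mu
        (fun j => badj G K L S0 f (ρo N cls ω) (χo ω) hz j)
        (fun j a m => Qj G K N S0 f (ρo N cls ω) (χo ω) hz j a ∧
          Szj G K N S0 f (ρo N cls ω) (χo ω) j a m) (M * L) 1 none := by
      refine Ex_mono pl_isP fun ω => ?_
      by_cases hω : E ω
      · rw [ind_pos hω]
        exact X_lower hP.l0 hP.l1 hP.hm (hE ω hω)
      · rw [ind_neg hω]
        exact mul_nonneg (pow_nonneg hP.m0 _) (X_nonneg hP.l0.le hP.m0 _ _ _)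
    rw [Ex_smul] at h1
    refine h1.trans ?_
    rw [mul_pow, ← pow_mul, mul_comm L M]
    refine mul_le_mul_of_nonneg_left (hX.trans (pow_le_pow_left₀ ?_ hP.hθ _)) (pow_nonneg hP.m0 _)
    have := hP.m0
    have := hP.l0
    have := hP.e0
    positivity
  · intro i _ _ ω ω' hω
    have := fun n => dep_col (G := G) (K := K) (N := N) (cls := cls) (Tj G S0 f i) {f i} n ω ω' hω
    simp only at this
    simp only [badj, Long, this]
  · intro i h1 h2 ω ω' hω
    have hS := hcat.star h1 (show i ≤ M * L by omega)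
    have e1 := fun n => dep_col (G := G) (K := K) (N := N) (cls := cls) (Tj G S0 f i) {f i} n ω ω' hω
    have e2 := fun n => dep_oneCol (G := G) (K := K) (N := N) (cls := cls) (side G f i)
      (Br G S0 (f i)) n ω ω' fun u hu => hω u (by
        obtain ⟨w, hw, hu⟩ := Set.mem_iUnion₂.1 hu
        exact hS.sub hw hu)
    have e3 : ρo N cls ω (f i) = ρo N cls ω' (f i) := by simp only [ρo, hω _ hS.vT]
    simp only at e1 e2
    simp only [Qj, Szj, Qt, e1, e2, e3]
  · intro i j h1 h2 h3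
    exact hcat.disj h1 h2 (by omega)
  · intro i h1 h2
    exact hC (f i) (side G f i) (hcat.star h1 (by omega)).adj ((hd i h1 (by omega)).mono (by omega))
  · intro i a m h1 h2 ha
    by_cases haz : a * N ≤ hz
    · refine le_trans (Pr_mono pl_isP fun ω hω => ⟨hω.1.1, hω.2⟩)
        (Pr_reg h hP.e1 hC ha haz (C := side G f i) ?_ (hcat.star h1 (by omega)).adj
          (hd i h1 (by omega)) m)
      have a1 : G.Adj (f i) (f (i - 1)) := by
        have := (hcat.iw.adj (i - 1) (by omega)).symm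
        rwa [show i - 1 + 1 = i by omega] at this
      have n1 : f (i + 1) ≠ f (i - 1) := fun hc => by
        have := hcat.iw.inj _ _ (by omega) (by omega) hc; omega
      rw [side, card_erase_of_mem (mem_erase.2 ⟨n1, mem_nb.2 (hcat.iw.adj i (by omega))⟩),
        card_erase_of_mem (mem_nb.2 a1), h.h4]
    · rw [Pr_congr (F := fun _ => False) fun ω => ⟨fun hω => haz hω.1.2, False.elim⟩, Pr_false]
      norm_num

lemma claim_step (h : Ctx G K L N cls S0) (hP : Par L lam mu η θ) {hz d0 : ℕ}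
    (hC : Claim G K L N cls S0 η hz d0) (hz2 : hz < 200 * N) :
    Claim G K L N cls S0 η (hz + 1) (L + (d0 + 10001)) := by
  classical
  intro v C hadj hv
  have hN0 : 0 < N := by omega
  have hCS : ∀ w ∈ C, G.Adj v w ∧ w ∈ S0 := fun w hw =>
    ⟨hadj w hw, hv w ((near_of_adj (hadj w hw)).mono (by omega))⟩
  have h1 := (Pr_mono pl_isP (F := fun ω => ∃ g ∈ FP G v (L + 1), g 0 = v ∧ ∃ n, n ≤ hz ∧ ∃ c,
      Ch G (St G S0 v C) (col G K (St G S0 v C) {v} (ρo N cls ω) (χo ω) n) g c (L + 1))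
      (E := fun ω => ∃ n, n < hz + 1 ∧ Long G K L (St G S0 v C) v (ρo N cls ω) (χo ω) n) (by
      rintro ω ⟨n, hn, p, c, hc, h0⟩
      obtain ⟨g, hg, hpg⟩ := exists_FP (L + 1) p hc.iw h0
      exact ⟨g, hg, by rw [← hpg 0 (by omega), h0], n, by omega, c, hc.congr hpg⟩)).trans
    (Pr_exists pl_isP _ _)
  refine h1.trans (le_trans (sum_le_card_nsmul _ _ (mu * θ ^ L) fun g _ => ?_) ?_)
  · by_cases hg : g 0 = v ∧ IW G g (L + 1)
    swap
    · rw [Pr_congr (F := fun _ => False) fun ω =>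
        ⟨fun ⟨h0, n, _, c, hc⟩ => hg ⟨h0, hc.iw⟩, False.elim⟩, Pr_false]
      exact mul_nonneg hP.m0 (pow_nonneg hP.t0 _)
    obtain ⟨h0, hiw⟩ := hg
    have hnear : ∀ i, i ≤ L + 1 → Near G i v (g i) := fun i hi => h0 ▸ near_of_walk hiw.adj i hi
    have hcat : Cat G S0 g (1 * L) := by
      rw [one_mul]
      exact ⟨h.ac, hiw, fun i hi => hv _ ((hnear i hi).mono (by omega)),
        fun j _ hj w hw => hv _ (((hnear j (by omega)).adj hw).mono (by omega))⟩
    have := cat_bound h hP hC hcat (fun j _ hj => Deep.near (r := L) hv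
      ((hnear j (by omega)).mono (by omega)))
      (E := fun ω => g 0 = v ∧ ∃ n, n ≤ hz ∧ ∃ c,
        Ch G (St G S0 v C) (col G K (St G S0 v C) {v} (ρo N cls ω) (χo ω) n) g c (L + 1)) (by
        rintro ω ⟨-, n, hn, c, hc⟩
        rw [← one_mul L] at hc
        refine cat_star (h.nice ω) h.hK hN0 hcat (St_sub hv.self hCS) hc.mem
          (fun u hu huv z hz ha => St_closed hu (h0 ▸ huv) hz ha) (W := {v})
          (fun u hu => hu.trans h0.symm) hn (by omega) hc.unc fun j _ _ _ => ⟨by omega, c, ?_⟩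
        simpa only [one_mul] using hc)
    rwa [pow_one] at this
  · rw [nsmul_eq_mul]
    refine le_trans (mul_le_mul_of_nonneg_right ?_ (mul_nonneg hP.m0 (pow_nonneg hP.t0 _))) hP.hL
    exact_mod_cast card_FP h.h4 v (L + 1)

lemma claim_all (h : Ctx G K L N cls S0) (hP : Par L lam mu η θ) :
    ∀ hz, hz ≤ 200 * N → Claim G K L N cls S0 η hz (hz * (L + 10001)) := by
  intro hz
  induction hz with
  | zero =>
    intro _ v C _ _
    rw [Pr_congr (F := fun _ => False) fun ω => ⟨fun ⟨n, hn, _⟩ => by omega, False.elim⟩, Pr_false]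
    exact hP.e0
  | succ hz ih =>
    intro hlt
    have := claim_step h hP (ih (by omega)) (by omega)
    rwa [show L + (hz * (L + 10001) + 10001) = (hz + 1) * (L + 10001) by ring] at this

lemma final_bound (h : Ctx G K L N cls S0) (hP : Par L lam mu η θ) {f : ℕ → V} {M : ℕ}
    (hiw : IW G f (M * L + 1))
    (hd : ∀ j, j ≤ M * L + 1 → Deep G S0 (200 * N * (L + 10001) + 10001) (f j)) :
    Pr pl (fun ω => ∀ i, i ≤ M * L + 1 →
      Unc (col G K S0 ∅ (ρo N cls ω) (χo ω) (200 * N)) (f i)) ≤ (mu * θ ^ L) ^ M := by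
  have hN0 : 0 < N := lt_of_le_of_lt (Nat.zero_le _) (h.cls_lt (f 0))
  have hcat : Cat G S0 f (M * L) := ⟨h.ac, hiw, fun i hi => (hd i hi).self,
    fun j _ hj w hw => hd j (by omega) w ((near_of_adj hw).mono (by omega))⟩
  refine cat_bound h hP (claim_all h hP _ le_rfl) hcat (fun j _ hj => hd j (by omega)) ?_
  intro ω hω
  refine cat_star (h.nice ω) h.hK hN0 hcat subset_rfl hcat.mem (fun _ _ _ _ hz _ => hz) (W := ∅)
    (fun u hu => absurd hu id) le_rfl le_rfl hω fun j _ _ hq => ?_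
  have := ρo_lt h.cls_lt ω (f j)
  have := hq.1
  omega

lemma exists_par : ∃ (L : ℕ) (lam mu η θ : ℝ), 1 ≤ L ∧ Par L lam mu η θ := by
  obtain ⟨lam, hl⟩ : ∃ lam : ℝ, lam = 1 / 10 ^ 7 := ⟨_, rfl⟩
  have l0 : 0 < lam := by rw [hl]; positivity
  have l1 : lam ≤ 1 := by rw [hl]; norm_num
  have hp : 0 < lam ^ (4 * 200) := pow_pos l0 _
  have hp1 : lam ^ (4 * 200) ≤ 1 := pow_le_one₀ l0.le l1
  generalize hq : lam ^ (4 * 200) = q at hp hp1
  obtain ⟨L, hL1, hL⟩ := exists_large (q := 99 / 100) (by norm_num) (by norm_num) (6 * q⁻¹) 0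
    (δ := q / 10000) (by positivity)
  refine ⟨L, lam, q⁻¹, q / 10000, 33 / 100, hL1, l0, l1, by rw [hq]; field_simp, by positivity,
    by linarith, ?_, ?_⟩
  · rw [show q / 10000 * q⁻¹ = 1 / 10000 by field_simp, hl]; norm_num
  · refine le_trans (le_of_eq ?_) hL
    rw [show (99 / 100 : ℝ) = 3 * (33 / 100) by norm_num, mul_pow]
    ring

theorem main_thm : ∃ g : ℕ, ∀ (V : Type) [Fintype V] [DecidableEq V] (G : SimpleGraph V),
    (∀ v, (nb G v).card = 4) → (g : ℕ∞) ≤ G.egirth → G.Colorable 3 := by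
  classical
  obtain ⟨L, lam, mu, η, θ, hL, hP⟩ := exists_par
  obtain ⟨K, hK⟩ : ∃ K, K = 3 * L + 1 := ⟨_, rfl⟩
  obtain ⟨N, hN⟩ : ∃ N, N = 5 ^ (2 * K) + 1 := ⟨_, rfl⟩
  obtain ⟨r, hr⟩ : ∃ r, r = (2 * K + 1) * (200 * N) + (200 * N * (L + 10001) + 10001) := ⟨_, rfl⟩
  obtain ⟨M, hM1, hM⟩ := exists_large (q := 1 / 2) (by norm_num) (by norm_num)
    (48 * (L + 2) ^ 2 * 5 ^ (2 * r)) 2 (δ := 1) one_pos
  refine ⟨(M * L + 1 + 1) * 5 ^ r + 2 * (M * L + K + 2) + 3, fun V _ _ G h4 hg => ?_⟩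
  have hac := ac_of_girth hg
  have hup : UP G (M * L + K + 2) := up_of_ac fun S hS => hac S (by omega)
  obtain ⟨cls, hc1, hc2⟩ := exists_schedule h4 (2 * K)
  rw [← hN] at hc1
  have ctx : ∀ f, Ctx G K L N cls (hull G r (M * L + 1) f : Set V) := fun f =>
    ⟨h4, hup.mono (by omega), hc1, hc2, hac _ (by have := card_hull h4 r (M * L + 1) f; omega),
      hL, by omega⟩
  have hq0 : 0 ≤ mu * θ ^ L := mul_nonneg hP.m0 (pow_nonneg hP.t0 _)
  obtain ⟨ω, hω⟩ := local_lemma pl_isP (Paths G (M * L + 1))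
    (fun f => (hull G r (M * L + 1) f : Set V))
    (fun f ω => ∀ i, i ≤ M * L + 1 → Unc (col G K (hull G r (M * L + 1) f : Set V) ∅
      (ρo N cls ω) (χo ω) (200 * N)) (f i)) ((mu * θ ^ L) ^ M)
    ((M * L + 1 + 1) * 5 ^ (2 * r) * ((M * L + 1 + 1) * (4 * 3 ^ (M * L + 1))))
    (Nat.succ_le_of_lt (by positivity)) (pow_nonneg hq0 _)
    (fun f _ => (dep_col _ ∅ (200 * N)).comp fun σ => ∀ i, i ≤ M * L + 1 → Unc σ (f i))
    (fun f hf => final_bound (ctx f) hP (Paths_iw hf) fun j hj z hz =>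
      mem_hull.2 ⟨j, hj, hz.mono (by omega)⟩)
    (fun f _ => by convert card_nbrs h4 r (M * L + 1) f)
    (by
      refine le_trans ?_ hM
      have h1 : 3 ^ L * (mu * θ ^ L) ≤ 1 / 2 := by
        have := hP.hL
        have := hP.e1
        have : 0 ≤ 3 ^ L * (mu * θ ^ L) := by positivity
        rw [pow_succ] at *
        nlinarith
      have h2 : (3 ^ L * (mu * θ ^ L)) ^ M ≤ (1 / 2) ^ M := pow_le_pow_left₀ (by positivity) h1 _
      have h3 : ((M * L + 1 + 1 : ℕ) : ℝ) ≤ (L + 2) * M := by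
        have : (1 : ℝ) ≤ M := by exact_mod_cast hM1
        push_cast; nlinarith
      have h5 : ((M * L + 1 + 1 : ℕ) : ℝ) ^ 2 ≤ ((L + 2) * M) ^ 2 :=
        pow_le_pow_left₀ (by positivity) h3 _
      calc _ = 48 * 5 ^ (2 * r) * (((M * L + 1 + 1 : ℕ) : ℝ) ^ 2 *
            (3 ^ L * (mu * θ ^ L)) ^ M) := by
            rw [mul_pow (3 ^ L : ℝ), ← pow_mul, mul_comm L M]; push_cast; ring
        _ ≤ 48 * 5 ^ (2 * r) * (((L + 2) * M) ^ 2 * (1 / 2) ^ M) := by gcongr
        _ = _ := by ring)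
  have hnice : Nice G K (ρo N cls ω) := by
    refine ⟨hup.mono (by omega), fun x x' he => hc2 x x' ?_⟩
    have := congrArg (· % N) he
    simpa [ρo, Nat.mod_eq_of_lt (hc1 _)] using this
  refine colorable_of_state (R := M * L + 1) (hup.mono (by omega))
    (col_inv (W := ∅) (χ := χo ω) hnice (200 * N)) fun f hf => ?_
  obtain ⟨g, hg, hfg⟩ := exists_Paths hf
  have := hω g hg
  push Not at this
  obtain ⟨i, hi, hu⟩ := this
  refine ⟨i, hi, fun hu' => hu fun c hc => hu' c ?_⟩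
  rw [hfg i hi]
  exact (localize _ _ (fun z hz => mem_hull.2 ⟨i, hi, hz.mono (by omega)⟩) c).1 hc

end

end Pool.Agent.MP_d802e4_co

end
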