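import Mathlib
import Pool.Agent.MP_d802e4_co.Prob

-- part MP_d802e4_co.Graph
section

/-!
Graph-theoretic basics: nearness, injective walks given as functions on naturals,
locally acyclic vertex sets and their branches.
-/

set_option autoImplicit false

namespace Pool.Agent.MP_d802e4_co

open Finset

variable {V : Type*} (G : SimpleGraph V)

/-- `Near G r x y`: there is a walk of length at most `r` from `x` to `y`. -/
def Near : ℕ → V → V → Prop
  | 0, x, y => x = y
  | r + 1, x, y => Near r x y ∨ ∃ z, Near r x z ∧ G.Adj z y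

variable {G}

lemma near_refl (r : ℕ) (x : V) : Near G r x x := by
  induction r with
  | zero => rfl
  | succ r ih => exact Or.inl ih

lemma Near.mono {r s : ℕ} {x y : V} (h : Near G r x y) (hrs : r ≤ s) : Near G s x y := by
  induction hrs with
  | refl => exact h
  | step _ ih => exact Or.inl ih

lemma Near.adj {r : ℕ} {x y z : V} (h : Near G r x y) (ha : G.Adj y z) : Near G (r + 1) x z :=
  Or.inr ⟨y, h, ha⟩

lemma near_of_adj {x y : V} (ha : G.Adj x y) : Near G 1 x y := (near_refl 0 x).adj ha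

lemma Near.trans {r s : ℕ} {x y z : V} (h : Near G r x y) (h' : Near G s y z) :
    Near G (r + s) x z := by
  induction s generalizing z with
  | zero => cases h'; exact h
  | succ s ih =>
    rcases h' with h' | ⟨w, h', ha⟩
    · exact Or.inl (ih h')
    · exact (ih h').adj ha

lemma Near.symm {r : ℕ} {x y : V} (h : Near G r x y) : Near G r y x := by
  induction r generalizing y with
  | zero => exact Eq.symm h
  | succ r ih =>
    rcases h with h | ⟨w, h, ha⟩
    · exact Or.inl (ih h)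
    · have := (near_of_adj ha.symm).trans (ih h)
      rwa [add_comm] at this

lemma near_of_walk {p : ℕ → V} {d : ℕ} (h : ∀ i, i < d → G.Adj (p i) (p (i + 1))) :
    ∀ i, i ≤ d → Near G i (p 0) (p i) := by
  intro i
  induction i with
  | zero => intro _; rfl
  | succ i ih => intro hi; exact (ih (by omega)).adj (h i (by omega))

variable (G)

/-- injective walk `p 0, ..., p d` -/
structure IW (p : ℕ → V) (d : ℕ) : Prop where
  inj : ∀ i j, i ≤ d → j ≤ d → p i = p j → i = j
  adj : ∀ i, i < d → G.Adj (p i) (p (i + 1))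

/-- injective walks of length at most `M` are determined by their ends -/
def UP (M : ℕ) : Prop :=
  ∀ (d d' : ℕ) (p p' : ℕ → V), IW G p d → IW G p' d' → d ≤ M → d' ≤ M → p 0 = p' 0 →
    p d = p' d' → d = d' ∧ ∀ i, i ≤ d → p i = p' i

/-- the branch of `S` behind the directed edge from `p` to `q` -/
def Br (S : Set V) (p q : V) : Set V :=
  {z | Relation.ReflTransGen (fun a b => G.Adj a b ∧ b ∈ S ∧ b ≠ p) q z}

/-- `S` spans no cycle -/
def AC (S : Set V) : Prop :=
  ∀ q ∈ S, ∀ w w', G.Adj q w → G.Adj q w' → w ∈ S → w' ∈ Br G S q w → w = w'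

variable {G}

lemma IW.take {p : ℕ → V} {d d' : ℕ} (h : IW G p d) (hd : d' ≤ d) : IW G p d' :=
  ⟨fun i j hi hj => h.inj i j (by omega) (by omega), fun i hi => h.adj i (by omega)⟩

lemma IW.drop {p : ℕ → V} {d : ℕ} (h : IW G p d) (a e : ℕ) (hd : a + e ≤ d) :
    IW G (fun i => p (a + i)) e :=
  ⟨fun i j hi hj hij => by have := h.inj _ _ (by omega) (by omega) hij; omega,
    fun i hi => h.adj (a + i) (by omega)⟩

lemma IW.rev {p : ℕ → V} {d : ℕ} (h : IW G p d) (a e : ℕ) (ha : a ≤ d) (he : e ≤ a) :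
    IW G (fun i => p (a - i)) e :=
  ⟨fun i j hi hj hij => by have := h.inj _ _ (by omega) (by omega) hij; omega,
    fun i hi => by
      have := (h.adj (a - (i + 1)) (by omega)).symm
      rwa [show a - (i + 1) + 1 = a - i by omega] at this⟩

lemma IW.congr {p p' : ℕ → V} {d : ℕ} (h : IW G p d) (hp : ∀ i, i ≤ d → p i = p' i) :
    IW G p' d :=
  ⟨fun i j hi hj hij => h.inj i j hi hj (by rw [hp i hi, hp j hj, hij]),
    fun i hi => by rw [← hp i (by omega), ← hp (i + 1) (by omega)]; exact h.adj i hi⟩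

/-- append a vertex -/
def snoc {α : Type*} (p : ℕ → α) (d : ℕ) (z : α) : ℕ → α := fun i => if i ≤ d then p i else z

lemma snoc_le {α : Type*} (p : ℕ → α) {d i : ℕ} (z : α) (h : i ≤ d) : snoc p d z i = p i := by
  simp [snoc, h]

lemma snoc_last {α : Type*} (p : ℕ → α) (d : ℕ) (z : α) : snoc p d z (d + 1) = z := by
  simp [snoc]

lemma IW.snoc {p : ℕ → V} {d : ℕ} (h : IW G p d) {z : V} (ha : G.Adj (p d) z)
    (hz : ∀ i, i ≤ d → p i ≠ z) : IW G (snoc p d z) (d + 1) := by
  constructor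
  · intro i j hi hj hij
    by_cases h1 : i ≤ d <;> by_cases h2 : j ≤ d
    · rw [snoc_le _ _ h1, snoc_le _ _ h2] at hij; exact h.inj i j h1 h2 hij
    · rw [snoc_le _ _ h1, show j = d + 1 by omega, snoc_last] at hij; exact absurd hij (hz i h1)
    · rw [snoc_le _ _ h2, show i = d + 1 by omega, snoc_last] at hij
      exact absurd hij.symm (hz j h2)
    · omega
  · intro i hi
    by_cases h1 : i < d
    · rw [snoc_le _ _ h1.le, snoc_le _ _ (show i + 1 ≤ d by omega)]; exact h.adj i h1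
    · rw [show i = d by omega, snoc_le _ _ le_rfl, snoc_last]; exact ha

lemma UP.mono {M M' : ℕ} (h : UP G M) (hM : M' ≤ M) : UP G M' :=
  fun d d' p p' h1 h2 h3 h4 => h d d' p p' h1 h2 (by omega) (by omega)

lemma root_mem_Br (S : Set V) (p q : V) : q ∈ Br G S p q := Relation.ReflTransGen.refl

lemma Br_step {S : Set V} {p q a b : V} (h : a ∈ Br G S p q) (ha : G.Adj a b) (hb : b ∈ S)
    (hbp : b ≠ p) : b ∈ Br G S p q := Relation.ReflTransGen.tail h ⟨ha, hb, hbp⟩

lemma Br_sub {S : Set V} {p q : V} (hq : q ∈ S) : Br G S p q ⊆ S := by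
  intro z hz
  induction hz with
  | refl => exact hq
  | tail _ h _ => exact h.2.1

lemma Br_ne {S : Set V} {p q z : V} (hq : q ≠ p) (hz : z ∈ Br G S p q) : z ≠ p := by
  induction hz with
  | refl => exact hq
  | tail _ h _ => exact h.2.2

lemma Br_trans {S : Set V} {p q a b : V} (h : a ∈ Br G S p q) (h' : b ∈ Br G S p a) :
    b ∈ Br G S p q := Relation.ReflTransGen.trans h h'

lemma Br_symm {S : Set V} {p q z : V} (hq : q ∈ S) (hqp : q ≠ p) (hz : z ∈ Br G S p q) :
    q ∈ Br G S p z := by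
  induction hz with
  | refl => exact root_mem_Br _ _ _
  | @tail b c hb h ih =>
    exact Br_trans (Br_step (root_mem_Br S p c) h.1.symm (Br_sub hq hb) (Br_ne hqp hb)) ih

/-- a walk inside `S` that avoids `v` stays in one branch at `v` -/
lemma Br_of_walk {S : Set V} {v : V} {p : ℕ → V} {d : ℕ}
    (ha : ∀ i, i < d → G.Adj (p i) (p (i + 1))) (a : ℕ) :
    ∀ b, a ≤ b → b ≤ d → (∀ i, a ≤ i → i ≤ b → p i ∈ S ∧ p i ≠ v) → p b ∈ Br G S v (p a) := by
  intro b hab
  induction hab with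
  | refl => intro _ _; exact root_mem_Br _ _ _
  | @step b hab ih =>
    intro hb h
    have hab' : a ≤ b := hab
    exact Br_step (ih (by omega) fun i h1 h2 => h i h1 (by omega)) (ha b (by omega))
      (h (b + 1) (by omega) le_rfl).1 (h (b + 1) (by omega) le_rfl).2

/-- a branch that misses `p'` lies in the branch at `p'` -/
lemma Br_sub_Br {S : Set V} {p p' q : V} (h : p' ∉ Br G S p q) : Br G S p q ⊆ Br G S p' q := by
  intro z hz
  induction hz with
  | refl => exact root_mem_Br _ _ _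
  | @tail b c hb hc ih =>
    exact Br_step ih hc.1 hc.2.1 (fun hcp => h (hcp ▸ Br_step hb hc.1 hc.2.1 hc.2.2))

lemma AC.disj {S : Set V} (h : AC G S) {v w w' : V} (hv : v ∈ S) (hw : G.Adj v w)
    (hw' : G.Adj v w') (hwS : w ∈ S) (hwS' : w' ∈ S) (hne : w ≠ w') :
    Disjoint (Br G S v w) (Br G S v w') := by
  rw [Set.disjoint_left]
  intro z hz hz'
  exact hne (h v hv w w' hw hw' hwS (Br_trans hz (Br_symm hwS' hw'.ne' hz')))

lemma ac_of_girth {g : ℕ} (hg : (g : ℕ∞) ≤ G.egirth) (S : Finset V) (hS : S.card < g) :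
    AC G (S : Set V) := by
  classical
  intro q hq w w' hw hw' hwS hBr
  by_contra hne
  have hwalk : ∀ z, z ∈ Br G (S : Set V) q w → ∃ P : G.Walk w z, ∀ y ∈ P.support, y ∈ S ∧ y ≠ q := by
    intro z hz
    induction hz with
    | refl => exact ⟨SimpleGraph.Walk.nil, by simpa using ⟨hwS, hw.ne'⟩⟩
    | @tail b c hb hc ih =>
      obtain ⟨P, hP⟩ := ih
      refine ⟨P.concat hc.1, ?_⟩
      intro y hy
      rw [SimpleGraph.Walk.support_concat] at hy
      simp only [List.mem_append, List.mem_singleton] at hy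
      rcases hy with hy | rfl
      · exact hP y hy
      · exact ⟨hc.2.1, hc.2.2⟩
  obtain ⟨P, hP⟩ := hwalk w' hBr
  let P' := P.bypass
  have hP' : ∀ y ∈ P'.support, y ∈ S ∧ y ≠ q := fun y hy => hP y (P.support_bypass_subset_support hy)
  have hpath : P'.IsPath := P.bypass_isPath
  have hpath2 : (P'.concat hw'.symm).IsPath := by
    rw [SimpleGraph.Walk.concat_isPath_iff]
    exact ⟨hpath, fun h => (hP' q h).2 rfl⟩
  have hcyc : (SimpleGraph.Walk.cons hw (P'.concat hw'.symm)).IsCycle := by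
    rw [SimpleGraph.Walk.cons_isCycle_iff]
    refine ⟨hpath2, ?_⟩
    rw [SimpleGraph.Walk.edges_concat]
    simp only [List.concat_eq_append, List.mem_append, List.mem_singleton, not_or]
    constructor
    · intro he
      exact (hP' q (P'.fst_mem_support_of_mem_edges he)).2 rfl
    · intro he
      rw [Sym2.eq_iff] at he
      rcases he with ⟨h1, h2⟩ | ⟨_, h2⟩
      · exact hw.ne h2.symm
      · exact hne h2
  have hlen : (P'.concat hw'.symm).support.length ≤ S.card := by
    rw [← List.toFinset_card_of_nodup hpath2.support_nodup]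
    apply Finset.card_le_card
    intro y hy
    rw [List.mem_toFinset, SimpleGraph.Walk.support_concat] at hy
    simp only [List.mem_append, List.mem_singleton] at hy
    rcases hy with hy | rfl
    · exact (hP' y hy).1
    · exact hq
  have h1 := SimpleGraph.le_egirth.1 hg _ _ hcyc
  rw [SimpleGraph.Walk.length_support] at hlen
  simp only [SimpleGraph.Walk.length_cons] at h1
  have h2 : g ≤ (P'.concat hw'.symm).length + 1 := by exact_mod_cast h1
  omega

lemma up_of_ac {M : ℕ} (h : ∀ S : Finset V, S.card ≤ 2 * M + 2 → AC G (S : Set V)) : UP G M := by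
  classical
  intro d
  induction d with
  | zero =>
    intro d' p p' h1 h2 _ _ h0 he
    have : d' = 0 := h2.inj _ _ le_rfl (Nat.zero_le _) (by rw [← he, h0])
    exact ⟨this.symm, fun i hi => by rw [show i = 0 by omega]; exact h0⟩
  | succ d ih =>
    intro d' p p' h1 h2 hd hd' h0 he
    cases d' with
    | zero =>
      have := h1.inj (d + 1) 0 le_rfl (Nat.zero_le _) (by rw [he, h0])
      omega
    | succ d' =>
      have h11 : p 1 = p' 1 := by
        let S : Finset V := (range (d + 2)).image p ∪ (range (d' + 2)).image p'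
        have hS : S.card ≤ 2 * M + 2 := by
          refine (Finset.card_union_le _ _).trans ?_
          have a1 := Finset.card_image_le (s := range (d + 2)) (f := p)
          have a2 := Finset.card_image_le (s := range (d' + 2)) (f := p')
          simp only [Finset.card_range] at a1 a2
          omega
        have m1 : ∀ i, i ≤ d + 1 → p i ∈ (S : Set V) := fun i hi => by
          simp only [S, Finset.coe_union, Set.mem_union, Finset.mem_coe, Finset.mem_image]
          exact Or.inl ⟨i, by simp; omega, rfl⟩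
        have m2 : ∀ i, i ≤ d' + 1 → p' i ∈ (S : Set V) := fun i hi => by
          simp only [S, Finset.coe_union, Set.mem_union, Finset.mem_coe, Finset.mem_image]
          exact Or.inr ⟨i, by simp; omega, rfl⟩
        have b1 : p (d + 1) ∈ Br G (S : Set V) (p 0) (p 1) :=
          Br_of_walk h1.adj 1 (d + 1) (by omega) le_rfl fun i hi hi' =>
            ⟨m1 i hi', fun hc => by have := h1.inj _ _ hi' (Nat.zero_le _) hc; omega⟩
        have b2 : p' (d' + 1) ∈ Br G (S : Set V) (p' 0) (p' 1) :=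
          Br_of_walk h2.adj 1 (d' + 1) (by omega) le_rfl fun i hi hi' =>
            ⟨m2 i hi', fun hc => by have := h2.inj _ _ hi' (Nat.zero_le _) hc; omega⟩
        rw [← h0, ← he] at b2
        have a2 : G.Adj (p 0) (p' 1) := h0 ▸ h2.adj 0 (by omega)
        exact h S hS (p 0) (m1 0 (by omega)) (p 1) (p' 1) (h1.adj 0 (by omega)) a2
          (m1 1 (by omega)) (Br_trans b1 (Br_symm (m2 1 (by omega)) a2.ne' b2))
      have := ih d' (fun i => p (1 + i)) (fun i => p' (1 + i)) (h1.drop 1 d (by omega))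
        (h2.drop 1 d' (by omega)) (by omega) (by omega) h11
        (by simp only [add_comm 1]; exact he)
      refine ⟨by omega, fun i hi => ?_⟩
      cases i with
      | zero => exact h0
      | succ i => have := this.2 i (by omega); simpa only [add_comm 1] using this

end Pool.Agent.MP_d802e4_co

end

-- part MP_d802e4_co.Proc
section

/-!
The colouring process. A state is a relation between vertices and colours.
In round `n` every uncoloured vertex whose clock shows `n` picks a colour, and the forced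
colours are propagated, unless the propagation is long or reaches a wall.
-/

set_option autoImplicit false

namespace Pool.Agent.MP_d802e4_co

abbrev Co := ZMod 3

variable {V : Type*}

def Unc (σ : V → Co → Prop) (u : V) : Prop := ∀ c, ¬ σ u c

def Sees (G : SimpleGraph V) (σ : V → Co → Prop) (u : V) (m : Co) : Prop := ∃ z, G.Adj u z ∧ σ z m

open Classical in
noncomputable def sc (G : SimpleGraph V) (χ : V → Co) (σ : V → Co → Prop) (x : V) : Co :=
  if Sees G σ x (χ x) then χ x + 1 else χ x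

/-- a propagation chain -/
structure Ch (G : SimpleGraph V) (S : Set V) (σ : V → Co → Prop) (p : ℕ → V) (c : ℕ → Co)
    (d : ℕ) : Prop where
  iw : IW G p d
  mem : ∀ i, i ≤ d → p i ∈ S
  unc : ∀ i, i ≤ d → Unc σ (p i)
  step : ∀ i, i < d → c i ≠ c (i + 1) ∧ Sees G σ (p (i + 1)) (-c i - c (i + 1))

def Blocked (G : SimpleGraph V) (K : ℕ) (S W : Set V) (χ : V → Co) (σ : V → Co → Prop) (x : V) :
    Prop :=
  ∃ p c d, Ch G S σ p c d ∧ p 0 = x ∧ c 0 = sc G χ σ x ∧ (d = K ∨ p d ∈ W)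

def Gets (G : SimpleGraph V) (K : ℕ) (S W : Set V) (ρ : V → ℕ) (χ : V → Co) (n : ℕ)
    (σ : V → Co → Prop) (u : V) (c' : Co) : Prop :=
  ∃ p c d, Ch G S σ p c d ∧ c 0 = sc G χ σ (p 0) ∧ ρ (p 0) = n ∧
    ¬ Blocked G K S W χ σ (p 0) ∧ p d = u ∧ c d = c'

def col (G : SimpleGraph V) (K : ℕ) (S W : Set V) (ρ : V → ℕ) (χ : V → Co) : ℕ → V → Co → Prop
  | 0 => fun _ _ => False
  | n + 1 => fun u c => col G K S W ρ χ n u c ∨ Gets G K S W ρ χ n (col G K S W ρ χ n) u c

variable {G : SimpleGraph V} {K : ℕ} {S W : Set V} {ρ : V → ℕ} {χ : V → Co}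

lemma col_zero (u : V) (c : Co) : ¬ col G K S W ρ χ 0 u c := fun h => h

lemma col_succ (n : ℕ) (u : V) (c : Co) : col G K S W ρ χ (n + 1) u c ↔
    col G K S W ρ χ n u c ∨ Gets G K S W ρ χ n (col G K S W ρ χ n) u c := Iff.rfl

lemma col_mono {n n' : ℕ} (h : n ≤ n') {u : V} {c : Co} (hc : col G K S W ρ χ n u c) :
    col G K S W ρ χ n' u c := by
  induction h with
  | refl => exact hc
  | step _ ih => exact Or.inl ih

lemma unc_mono {n n' : ℕ} (h : n ≤ n') {u : V} (hc : Unc (col G K S W ρ χ n') u) :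
    Unc (col G K S W ρ χ n) u := fun c hc' => hc c (col_mono h hc')

lemma sees_mono {n n' : ℕ} (h : n ≤ n') {u : V} {m : Co} (hc : Sees G (col G K S W ρ χ n) u m) :
    Sees G (col G K S W ρ χ n') u m := by
  obtain ⟨z, hz, hc⟩ := hc
  exact ⟨z, hz, col_mono h hc⟩

section chains

variable {σ σ' : V → Co → Prop} {p : ℕ → V} {c : ℕ → Co} {d : ℕ}

lemma Ch.take (h : Ch G S σ p c d) {d' : ℕ} (hd : d' ≤ d) : Ch G S σ p c d' :=
  ⟨h.iw.take hd, fun i hi => h.mem i (by omega), fun i hi => h.unc i (by omega),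
    fun i hi => h.step i (by omega)⟩

lemma Ch.drop (h : Ch G S σ p c d) (a e : ℕ) (hd : a + e ≤ d) :
    Ch G S σ (fun i => p (a + i)) (fun i => c (a + i)) e :=
  ⟨h.iw.drop a e hd, fun i hi => h.mem _ (by omega), fun i hi => h.unc _ (by omega),
    fun i hi => h.step (a + i) (by omega)⟩

lemma Ch.rev (h : Ch G S σ p c d) (a e : ℕ) (ha : a ≤ d) (he : e + 1 ≤ a) :
    Ch G S σ (fun i => p (a - i)) (fun i => c (a - i - 1)) e :=
  ⟨h.iw.rev a e ha (by omega), fun i hi => h.mem _ (by omega), fun i hi => h.unc _ (by omega),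
    fun i hi => by
      have := h.step (a - (i + 1) - 1) (by omega)
      rw [show a - (i + 1) - 1 + 1 = a - (i + 1) by omega] at this
      simp only [show a - i - 1 = a - (i + 1) by omega]
      refine ⟨this.1.symm, ?_⟩
      rw [show -c (a - (i + 1)) - c (a - (i + 1) - 1) = -c (a - (i + 1) - 1) - c (a - (i + 1)) by
        ring]
      exact this.2⟩

lemma Ch.transfer {S' : Set V} (h : Ch G S σ p c d) (hm : ∀ i, i ≤ d → p i ∈ S')
    (hu : ∀ i, i ≤ d → Unc σ' (p i))
    (hs : ∀ i m, 0 < i → i ≤ d → Sees G σ (p i) m → Sees G σ' (p i) m) : Ch G S' σ' p c d :=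
  ⟨h.iw, hm, hu, fun i hi => ⟨(h.step i hi).1, hs _ _ (by omega) (by omega) (h.step i hi).2⟩⟩

lemma Ch.congr {p' : ℕ → V} (h : Ch G S σ p c d) (hp : ∀ i, i ≤ d → p i = p' i) :
    Ch G S σ p' c d :=
  ⟨h.iw.congr hp, fun i hi => hp i hi ▸ h.mem i hi, fun i hi => hp i hi ▸ h.unc i hi,
    fun i hi => hp (i + 1) (by omega) ▸ h.step i hi⟩

lemma co_third : ∀ a m : Co, m ≠ a → a ≠ -a - m ∧ -a - (-a - m) = m := by decide

lemma Ch.snoc (h : Ch G S σ p c d) {z : V} {m : Co} (ha : G.Adj (p d) z)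
    (hz : ∀ i, i ≤ d → p i ≠ z) (hS : z ∈ S) (hu : Unc σ z) (hs : Sees G σ z m) (hm : m ≠ c d) :
    Ch G S σ (snoc p d z) (snoc c d (-c d - m)) (d + 1) := by
  refine ⟨h.iw.snoc ha hz, fun i hi => ?_, fun i hi => ?_, fun i hi => ?_⟩
  · by_cases h1 : i ≤ d
    · rw [snoc_le _ _ h1]; exact h.mem i h1
    · rw [show i = d + 1 by omega, snoc_last]; exact hS
  · by_cases h1 : i ≤ d
    · rw [snoc_le _ _ h1]; exact h.unc i h1
    · rw [show i = d + 1 by omega, snoc_last]; exact hu
  · by_cases h1 : i < d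
    · rw [snoc_le _ _ h1.le, snoc_le _ _ (show i + 1 ≤ d by omega),
        snoc_le _ _ (show i + 1 ≤ d by omega)]
      exact h.step i h1
    · rw [show i = d by omega, snoc_le _ _ le_rfl, snoc_last, snoc_last]
      refine ⟨(co_third _ _ hm).1, ?_⟩
      rw [(co_third _ _ hm).2]; exact hs

lemma ch_zero {x : V} (hx : x ∈ S) (hu : Unc σ x) (c0 : Co) :
    Ch G S σ (fun _ => x) (fun _ => c0) 0 :=
  ⟨⟨fun i j hi hj _ => by omega, fun i hi => by omega⟩, fun _ _ => hx, fun _ _ => hu,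
    fun i hi => by omega⟩

lemma Ch.lt_of_unblocked (h : Ch G S σ p c d) (h0 : c 0 = sc G χ σ (p 0))
    (hb : ¬ Blocked G K S W χ σ (p 0)) : d < K := by
  by_contra hd
  exact hb ⟨p, c, K, h.take (by omega), rfl, h0, Or.inl rfl⟩

lemma Ch.notW_of_unblocked (h : Ch G S σ p c d) (h0 : c 0 = sc G χ σ (p 0))
    (hb : ¬ Blocked G K S W χ σ (p 0)) {i : ℕ} (hi : i ≤ d) : p i ∉ W :=
  fun hW => hb ⟨p, c, i, h.take hi, rfl, h0, Or.inr hW⟩

lemma Ch.gets {n : ℕ} (h : Ch G S σ p c d) (h0 : c 0 = sc G χ σ (p 0)) (hρ : ρ (p 0) = n)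
    (hb : ¬ Blocked G K S W χ σ (p 0)) {i : ℕ} (hi : i ≤ d) :
    Gets G K S W ρ χ n σ (p i) (c i) := ⟨p, c, i, h.take hi, h0, hρ, hb, rfl, rfl⟩

lemma Ch.near (h : Ch G S σ p c d) {i : ℕ} (hi : i ≤ d) : Near G i (p 0) (p i) :=
  near_of_walk h.iw.adj i hi

lemma sc_congr {x : V} (h : ∀ m, Sees G σ x m ↔ Sees G σ' x m) : sc G χ σ x = sc G χ σ' x := by
  unfold sc
  by_cases h1 : Sees G σ x (χ x)
  · rw [if_pos h1, if_pos ((h _).1 h1)]
  · rw [if_neg h1, if_neg (fun h2 => h1 ((h _).2 h2))]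

end chains

lemma col_mem {n : ℕ} {u : V} {c : Co} (h : col G K S W ρ χ n u c) : u ∈ S ∧ u ∉ W := by
  induction n with
  | zero => exact absurd h (col_zero _ _)
  | succ n ih =>
    rcases h with h | ⟨p, c', d, hc, h0, _, hb, rfl, _⟩
    · exact ih h
    · exact ⟨hc.mem d le_rfl, hc.notW_of_unblocked h0 hb le_rfl⟩

/-- the invariants of the process -/
structure Inv (G : SimpleGraph V) (S : Set V) (σ : V → Co → Prop) : Prop where
  uniq : ∀ u c c', σ u c → σ u c' → c = c'
  proper : ∀ u z c, G.Adj u z → σ u c → ¬ σ z c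
  one : ∀ u ∈ S, Unc σ u → ∀ m m', Sees G σ u m → Sees G σ u m' → m = m'

/-- standing assumptions: unique short walks and well separated clocks -/
structure Nice (G : SimpleGraph V) (K : ℕ) (ρ : V → ℕ) : Prop where
  up : UP G K
  sep : ∀ x x', ρ x = ρ x' → Near G (2 * K) x x' → x = x'

lemma Ch.col_eq {σ : V → Co → Prop} (hI : Inv G S σ) {p p' : ℕ → V} {c c' : ℕ → Co} {d d' : ℕ}
    (h : Ch G S σ p c d) (h' : Ch G S σ p' c' d') (h0 : c 0 = c' 0) :
    ∀ i, i ≤ d → i ≤ d' → (∀ j, j ≤ i → p j = p' j) → c i = c' i := by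
  intro i
  induction i with
  | zero => intro _ _ _; exact h0
  | succ i ih =>
    intro hi hi' hp
    have e := ih (by omega) (by omega) fun j hj => hp j (by omega)
    have s1 := (h.step i (by omega)).2
    have s2 := (h'.step i (by omega)).2
    rw [← hp (i + 1) le_rfl, ← e] at s2
    have := hI.one _ (h.mem (i + 1) hi) (h.unc (i + 1) hi) _ _ s1 s2
    linear_combination -this

lemma co_ne_third : ∀ a b : Co, a ≠ b → b ≠ -a - b := by decide
lemma co_succ_ne : ∀ a : Co, a + 1 ≠ a := by decide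

/-- the colour at any vertex of a chain from a seed is not seen by that vertex -/
lemma Ch.not_sees {σ : V → Co → Prop} (hI : Inv G S σ) {p : ℕ → V} {c : ℕ → Co} {d : ℕ}
    (h : Ch G S σ p c d) (h0 : c 0 = sc G χ σ (p 0)) : ¬ Sees G σ (p d) (c d) := by
  intro hs
  cases d with
  | zero =>
    rw [h0] at hs
    unfold sc at hs
    split_ifs at hs with h1
    · exact co_succ_ne _ (hI.one _ (h.mem 0 le_rfl) (h.unc 0 le_rfl) _ _ hs h1)
    · exact h1 hs
  | succ d =>
    have s := h.step d (by omega)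
    exact co_ne_third _ _ s.1 (hI.one _ (h.mem _ le_rfl) (h.unc _ le_rfl) _ _ hs s.2)

lemma inv_step (hN : Nice G K ρ) {σ : V → Co → Prop} (hI : Inv G S σ) (n : ℕ) :
    Inv G S (fun u c => σ u c ∨ Gets G K S W ρ χ n σ u c) := by
  have same : ∀ {p p' : ℕ → V} {c c' : ℕ → Co} {d d' : ℕ}, Ch G S σ p c d → Ch G S σ p' c' d' →
      ρ (p 0) = n → ρ (p' 0) = n → d < K → d' < K → Near G 2 (p d) (p' d') → p 0 = p' 0 := by
    intro p p' c c' d d' h h' r r' hd hd' hn
    refine hN.sep _ _ (by rw [r, r']) ?_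
    exact (((h.near le_rfl).trans hn).trans (h'.near le_rfl).symm).mono (by omega)
  refine ⟨?_, ?_, ?_⟩
  · rintro u c c' (h | ⟨p, e, d, hc, h0, hρ, hb, rfl, rfl⟩) (h' | ⟨p', e', d', hc', h0', hρ', hb', hu, rfl⟩)
    · exact hI.uniq _ _ _ h h'
    · exact absurd h (hu ▸ hc'.unc d' le_rfl _)
    · exact absurd h' (hc.unc d le_rfl _)
    · have hd := hc.lt_of_unblocked h0 hb
      have hd' := hc'.lt_of_unblocked h0' hb'
      have hs := same hc hc' hρ hρ' hd hd' (hu ▸ near_refl _ _)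
      obtain ⟨rfl, hp⟩ := hN.up d d' p p' hc.iw hc'.iw hd.le hd'.le hs hu.symm
      exact hc.col_eq hI hc' (by rw [h0, h0', hs]) d le_rfl le_rfl hp
  · have aux : ∀ {p p' : ℕ → V} {c c' : ℕ → Co} {d d' : ℕ}, Ch G S σ p c d → Ch G S σ p' c' d' →
        p 0 = p' 0 → c 0 = c' 0 → d < K → d' < K → G.Adj (p d) (p' d') →
        (∀ i, i ≤ d → p i ≠ p' d') → c d ≠ c' d' := by
      intro p p' c c' d d' h h' e0 ec hd hd' ha hne
      obtain ⟨rfl, hp⟩ := hN.up (d + 1) d' (snoc p d (p' d')) p' (h.iw.snoc ha hne) h'.iw hd hd'.le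
        (by rw [snoc_le _ _ (Nat.zero_le _), e0]) (snoc_last _ _ _)
      have := h.col_eq hI h' ec d le_rfl (by omega) fun j hj => by
        rw [← hp j (by omega), snoc_le _ _ hj]
      rw [this]
      exact (h'.step d (by omega)).1
    rintro u z c ha (h | ⟨p, e, d, hc, h0, hρ, hb, rfl, rfl⟩) (h' | ⟨p', e', d', hc', h0', hρ', hb', rfl, he⟩)
    · exact hI.proper _ _ _ ha h h'
    · exact hc'.not_sees hI h0' ⟨u, ha.symm, he ▸ h⟩
    · exact hc.not_sees hI h0 ⟨z, ha, h'⟩
    · have hd := hc.lt_of_unblocked h0 hb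
      have hd' := hc'.lt_of_unblocked h0' hb'
      have hs := same hc hc' hρ hρ' hd hd' ((near_of_adj ha).mono (by omega))
      have ec : e 0 = e' 0 := by rw [h0, h0', hs]
      by_cases hne : ∀ i, i ≤ d → p i ≠ p' d'
      · exact aux hc hc' hs ec hd hd' ha hne he.symm
      · push Not at hne
        obtain ⟨i, hi, hiz⟩ := hne
        obtain ⟨rfl, hp⟩ := hN.up i d' p p' (hc.iw.take hi) hc'.iw (by omega) hd'.le hs hiz
        refine aux hc' hc hs.symm ec.symm hd' hd ha.symm ?_ he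
        intro j hj hjd
        rw [← hp j hj] at hjd
        have := hc.iw.inj j d (by omega) le_rfl hjd
        have hid : i = d := by omega
        subst hid
        exact ha.ne hiz
  · intro u huS hu
    have hu0 : Unc σ u := fun c h => hu c (Or.inl h)
    have hoff : ∀ {p : ℕ → V} {e : ℕ → Co} {d : ℕ}, Ch G S σ p e d → e 0 = sc G χ σ (p 0) →
        ρ (p 0) = n → ¬ Blocked G K S W χ σ (p 0) → ∀ i, i ≤ d → p i ≠ u := by
      intro p e d hc h0 hρ hb i hi hiu
      exact hu (e i) (Or.inr (hiu ▸ hc.gets h0 hρ hb hi))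
    have mixed : ∀ m m' z, Sees G σ u m → G.Adj u z → Gets G K S W ρ χ n σ z m' → m = m' := by
      rintro m m' z hs ha ⟨p, e, d, hc, h0, hρ, hb, rfl, rfl⟩
      by_contra hne
      have h1 := hc.snoc ha.symm (hoff hc h0 hρ hb) huS hu0 hs hne
      have e0 : snoc p d u 0 = p 0 := snoc_le _ _ (Nat.zero_le _)
      have := h1.gets (K := K) (W := W) (ρ := ρ) (χ := χ) (n := n)
        (by rw [e0, snoc_le _ _ (Nat.zero_le _), h0]) (by rw [e0, hρ]) (by rw [e0]; exact hb) le_rfl
      rw [snoc_last] at this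
      exact hu _ (Or.inr this)
    rintro m m' ⟨z, ha, h | h⟩ ⟨z', ha', h' | h'⟩
    · exact hI.one u huS hu0 _ _ ⟨z, ha, h⟩ ⟨z', ha', h'⟩
    · exact mixed _ _ _ ⟨z, ha, h⟩ ha' h'
    · exact (mixed _ _ _ ⟨z', ha', h'⟩ ha h).symm
    · obtain ⟨p, e, d, hc, h0, hρ, hb, rfl, rfl⟩ := h
      obtain ⟨p', e', d', hc', h0', hρ', hb', rfl, rfl⟩ := h'
      have hd := hc.lt_of_unblocked h0 hb
      have hd' := hc'.lt_of_unblocked h0' hb'
      have hs := same hc hc' hρ hρ' hd hd' ((near_of_adj ha.symm).adj ha')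
      obtain ⟨hdd, hp⟩ := hN.up (d + 1) (d' + 1) (snoc p d u) (snoc p' d' u)
        (hc.iw.snoc ha.symm (hoff hc h0 hρ hb)) (hc'.iw.snoc ha'.symm (hoff hc' h0' hρ' hb'))
        hd hd' (by rw [snoc_le _ _ (Nat.zero_le _), snoc_le _ _ (Nat.zero_le _), hs])
        (by rw [snoc_last, snoc_last])
      have hdd' : d = d' := by omega
      subst hdd'
      refine hc.col_eq hI hc' (by rw [h0, h0', hs]) d le_rfl le_rfl fun j hj => ?_
      have := hp j (by omega)
      rwa [snoc_le _ _ hj, snoc_le _ _ hj] at this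

lemma col_inv (hN : Nice G K ρ) (n : ℕ) : Inv G S (col G K S W ρ χ n) := by
  induction n with
  | zero =>
    exact ⟨fun _ _ _ h => absurd h (col_zero _ _), fun _ _ _ _ h => absurd h (col_zero _ _),
      fun _ _ _ _ _ ⟨_, _, h⟩ => absurd h (col_zero _ _)⟩
  | succ n ih => exact inv_step hN ih n

/-- dependence on the data off the walls only -/
lemma col_dep {ρ' : V → ℕ} {χ' : V → Co} (h : ∀ v ∈ S, v ∉ W → ρ v = ρ' v ∧ χ v = χ' v) (n : ℕ) :
    col G K S W ρ χ n = col G K S W ρ' χ' n := by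
  have key : ∀ {ρ ρ' : V → ℕ} {χ χ' : V → Co}, (∀ v ∈ S, v ∉ W → ρ v = ρ' v ∧ χ v = χ' v) →
      ∀ n σ u c, Gets G K S W ρ χ n σ u c → Gets G K S W ρ' χ' n σ u c := by
    rintro ρ ρ' χ χ' h n σ u c ⟨p, e, d, hc, h0, hρ, hb, hu, he⟩
    have hx := h _ (hc.mem 0 (Nat.zero_le _)) (hc.notW_of_unblocked h0 hb (Nat.zero_le _))
    have hsc : sc G χ σ (p 0) = sc G χ' σ (p 0) := by unfold sc; rw [hx.2]
    refine ⟨p, e, d, hc, hsc ▸ h0, hx.1 ▸ hρ, ?_, hu, he⟩
    rintro ⟨p', e', d', hc', h1, h2, h3⟩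
    exact hb ⟨p', e', d', hc', h1, hsc ▸ h2, h3⟩
  induction n with
  | zero => rfl
  | succ n ih =>
    funext u c
    apply propext
    rw [col_succ, col_succ, ← ih]
    exact or_congr Iff.rfl ⟨key h _ _ _ _,
      key (fun v hv hw => ⟨(h v hv hw).1.symm, (h v hv hw).2.symm⟩) _ _ _ _⟩

lemma co_shift : ∀ a b t : Co, -(a + t) - (b + t) = -a - b + t := by decide

lemma gets_shift (t : Co) {σ σ' : V → Co → Prop} (hσ : ∀ u c, σ' u (c + t) ↔ σ u c) (n : ℕ) (u : V)
    (c : Co) (h : Gets G K S W ρ χ n σ u c) :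
    Gets G K S W ρ (fun v => χ v + t) n σ' u (c + t) := by
  have chs : ∀ {σ σ' : V → Co → Prop} (t : Co), (∀ u c, σ' u (c + t) ↔ σ u c) →
      ∀ {p : ℕ → V} {e : ℕ → Co} {d : ℕ}, Ch G S σ p e d → Ch G S σ' p (fun i => e i + t) d := by
    intro σ σ' t hσ p e d hc
    refine ⟨hc.iw, hc.mem, fun i hi c hc' => hc.unc i hi (c - t) ((hσ _ _).1 (by simpa using hc')),
      fun i hi => ⟨by simpa using (hc.step i hi).1, ?_⟩⟩
    obtain ⟨z, hz, hm⟩ := (hc.step i hi).2
    exact ⟨z, hz, by rw [co_shift]; exact (hσ _ _).2 hm⟩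
  have hsc : ∀ x, sc G (fun v => χ v + t) σ' x = sc G χ σ x + t := by
    intro x
    have : Sees G σ' x (χ x + t) ↔ Sees G σ x (χ x) :=
      exists_congr fun z => and_congr Iff.rfl (hσ _ _)
    unfold sc
    by_cases h1 : Sees G σ x (χ x)
    · rw [if_pos h1, if_pos (this.2 h1)]; ring
    · rw [if_neg h1, if_neg (fun h2 => h1 (this.1 h2))]
  obtain ⟨p, e, d, hc, h0, hρ, hb, hu, he⟩ := h
  refine ⟨p, fun i => e i + t, d, chs t hσ hc, by rw [hsc, ← h0], hρ, ?_, hu, by rw [← he]⟩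
  rintro ⟨p', e', d', hc', h1, h2, h3⟩
  refine hb ⟨p', fun i => e' i + -t, d', chs (-t) (fun u c => ?_) hc', h1, by show e' 0 + -t = _; rw [h2, hsc]; ring, h3⟩
  rw [← hσ]; simp

lemma col_shift (t : Co) (n : ℕ) (u : V) (c : Co) :
    col G K S W ρ (fun v => χ v + t) n u (c + t) ↔ col G K S W ρ χ n u c := by
  induction n generalizing u c with
  | zero => rfl
  | succ n ih =>
    rw [col_succ, col_succ, ih]
    refine or_congr Iff.rfl ⟨fun h => ?_, gets_shift t ih n u c⟩
    have := gets_shift (-t) (σ' := col G K S W ρ χ n) (fun u c => by rw [← ih]; simp) n u _ h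
    simpa using this

end Pool.Agent.MP_d802e4_co

end

-- part MP_d802e4_co.Star
section

/-!
Comparison of the process on a vertex set with the processes on the pieces hanging at a vertex.
-/

set_option autoImplicit false

namespace Pool.Agent.MP_d802e4_co

variable {V : Type*}

/-- `T` consists of `v` and of the pieces `A w` hanging at `v` through the edges `v w`, `w ∈ C` -/
structure IsStar (G : SimpleGraph V) (v : V) (C : Finset V) (A : V → Set V) (T : Set V) :
    Prop where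
  adj : ∀ w ∈ C, G.Adj v w
  root : ∀ w ∈ C, w ∈ A w
  mem : ∀ z, z ∈ T ↔ z = v ∨ ∃ w ∈ C, z ∈ A w
  vnot : ∀ w ∈ C, v ∉ A w
  disj : ∀ w ∈ C, ∀ w' ∈ C, w ≠ w' → Disjoint (A w) (A w')
  closed : ∀ w ∈ C, ∀ u ∈ A w, ∀ z ∈ T, G.Adj u z → z ∈ A w ∨ (z = v ∧ u = w)

/-- `T` is attached to the rest of `S` through `v` only and has no wall -/
structure Emb (G : SimpleGraph V) (v : V) (T S W : Set V) : Prop where
  vT : v ∈ T
  sub : T ⊆ S
  closed : ∀ u ∈ T, u ≠ v → ∀ z ∈ S, G.Adj u z → z ∈ T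
  noW : ∀ u ∈ T, u ∉ W

/-- two states look the same on `B` -/
structure Agree (G : SimpleGraph V) (B : Set V) (σ τ : V → Co → Prop) : Prop where
  col : ∀ u ∈ B, ∀ c, σ u c ↔ τ u c
  sees : ∀ u ∈ B, ∀ m, Sees G σ u m ↔ Sees G τ u m

variable {G : SimpleGraph V} {K : ℕ} {S W T : Set V} {ρ : V → ℕ} {χ : V → Co}
  {v : V} {C : Finset V} {A : V → Set V}

lemma Agree.symm {B : Set V} {σ τ : V → Co → Prop} (h : Agree G B σ τ) : Agree G B τ σ :=
  ⟨fun u hu c => (h.col u hu c).symm, fun u hu c => (h.sees u hu c).symm⟩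

lemma Agree.trans {B B' : Set V} {σ τ φ : V → Co → Prop} (h : Agree G B σ τ) (h' : Agree G B' τ φ)
    (hB : B' ⊆ B) : Agree G B' σ φ :=
  ⟨fun u hu c => (h.col u (hB hu) c).trans (h'.col u hu c),
    fun u hu c => (h.sees u (hB hu) c).trans (h'.sees u hu c)⟩

lemma Agree.sc {B : Set V} {σ τ : V → Co → Prop} (h : Agree G B σ τ) {x : V} (hx : x ∈ B) :
    sc G χ σ x = sc G χ τ x := sc_congr (h.sees x hx)

lemma Ch.agree {B S' : Set V} {σ τ : V → Co → Prop} {p : ℕ → V} {c : ℕ → Co} {d : ℕ}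
    (h : Ch G S σ p c d) (ha : Agree G B σ τ) (hB : B ⊆ S') (hp : ∀ i, i ≤ d → p i ∈ B) :
    Ch G S' τ p c d :=
  h.transfer (fun i hi => hB (hp i hi))
    (fun i hi c hc => h.unc i hi c ((ha.col _ (hp i hi) c).2 hc))
    (fun i m _ hi hs => (ha.sees _ (hp i hi) m).1 hs)

lemma stay_fwd {B : Set V} {p : ℕ → V} {a b : ℕ} (_hab : a ≤ b) (h0 : p a ∈ B)
    (hstep : ∀ i, a ≤ i → i < b → p i ∈ B → p (i + 1) ∈ B) : ∀ i, a ≤ i → i ≤ b → p i ∈ B := by
  intro i hi
  induction hi with
  | refl => intro _; exact h0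
  | @step i hi ih => intro hb; exact hstep i hi (by omega) (ih (by omega))

lemma stay_bwd {B : Set V} {p : ℕ → V} {b : ℕ} (h0 : p b ∈ B)
    (hstep : ∀ i, i < b → p (i + 1) ∈ B → p i ∈ B) : ∀ i, i ≤ b → p i ∈ B := by
  intro i hi
  induction hi using Nat.decreasingInduction with
  | self => exact h0
  | of_succ i hi ih => exact hstep i hi ih

lemma IsStar.sub (h : IsStar G v C A T) {w : V} (hw : w ∈ C) : A w ⊆ T :=
  fun z hz => (h.mem z).2 (Or.inr ⟨w, hw, hz⟩)

lemma IsStar.vT (h : IsStar G v C A T) : v ∈ T := (h.mem v).2 (Or.inl rfl)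

lemma IsStar.nbr (h : IsStar G v C A T) {z : V} (hz : z ∈ T) (ha : G.Adj v z) : z ∈ C := by
  rcases (h.mem z).1 hz with rfl | ⟨w, hw, hz'⟩
  · exact absurd ha (G.loopless.irrefl _)
  · rcases h.closed w hw z hz' v h.vT ha.symm with h1 | h1
    · exact absurd h1 (h.vnot w hw)
    · exact h1.2 ▸ hw

lemma IsStar.emb (h : IsStar G v C A T) : Emb G v T T ∅ :=
  ⟨h.vT, subset_rfl, fun _ _ _ _ hz _ => hz, fun _ _ h => h⟩

theorem restrict (hE : Emb G v T S W) {t : ℕ} (hv : Unc (col G K S W ρ χ t) v)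
    (hout : ∀ z ∈ S, G.Adj v z → z ∉ T → Unc (col G K S W ρ χ t) z) :
    ∀ n, n ≤ t → Agree G T (col G K S W ρ χ n) (col G K T {v} ρ χ n) := by
  have upg : ∀ n, n ≤ t → (∀ u ∈ T, ∀ c, col G K S W ρ χ n u c ↔ col G K T {v} ρ χ n u c) →
      Agree G T (col G K S W ρ χ n) (col G K T {v} ρ χ n) := by
    intro n hn h
    refine ⟨h, fun u hu m => ⟨?_, ?_⟩⟩
    · rintro ⟨z, hz, hc⟩
      have hzT : z ∈ T := by
        by_cases huv : u = v
        · subst huv
          by_contra hzT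
          exact hout z (col_mem hc).1 hz hzT m (col_mono hn hc)
        · exact hE.closed u hu huv z (col_mem hc).1 hz
      exact ⟨z, hz, (h z hzT m).1 hc⟩
    · rintro ⟨z, hz, hc⟩
      exact ⟨z, hz, (h z (col_mem hc).1 m).2 hc⟩
  intro n
  induction n with
  | zero => intro hn; exact upg 0 hn fun _ _ _ => Iff.rfl
  | succ n ih =>
    intro hn
    have ha := ih (by omega)
    refine upg _ hn fun u hu c => ?_
    rw [col_succ, col_succ, ha.col u hu]
    refine or_congr Iff.rfl ⟨?_, ?_⟩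
    · rintro ⟨p, e, d, hc, h0, hρ, hb, rfl, rfl⟩
      have hne : ∀ {p' : ℕ → V} {e' : ℕ → Co} {d' : ℕ}, Ch G S (col G K S W ρ χ n) p' e' d' →
          p' 0 = p 0 → e' 0 = sc G χ (col G K S W ρ χ n) (p 0) → ∀ i, i ≤ d' → p' i ≠ v := by
        intro p' e' d' hc' h1 h2 i hi hiv
        refine hv (e' i) (col_mono hn (Or.inr ?_))
        rw [← hiv]
        exact hc'.gets (by rw [h1, h2]) (by rw [h1, hρ]) (by rw [h1]; exact hb) hi
      have hT : ∀ i, i ≤ d → p i ∈ T := stay_bwd hu fun i hi h =>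
        hE.closed _ h (hne hc rfl h0 _ (by omega)) _ (hc.mem i (by omega)) (hc.iw.adj i hi).symm
      have h0T := hT 0 (Nat.zero_le _)
      refine ⟨p, e, d, hc.agree ha subset_rfl hT, by rw [h0, ha.sc h0T], hρ, ?_, rfl, rfl⟩
      rintro ⟨p', e', d', hc', h1, h2, h3⟩
      have hc2 := hc'.agree ha.symm hE.sub hc'.mem
      rw [← ha.sc h0T] at h2
      rcases h3 with h3 | h3
      · exact hb ⟨p', e', d', hc2, h1, h2, Or.inl h3⟩
      · exact hne hc2 h1 h2 d' le_rfl h3
    · rintro ⟨p, e, d, hc, h0, hρ, hb, rfl, rfl⟩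
      have h0T := hc.mem 0 (Nat.zero_le _)
      refine ⟨p, e, d, hc.agree ha.symm hE.sub hc.mem, by rw [h0, ha.sc h0T], hρ, ?_, rfl, rfl⟩
      rintro ⟨p', e', d', hc', h1, h2, h3⟩
      rw [ha.sc h0T] at h2
      have part : ∀ i, i ≤ d' → (∀ j, j < i → p' j ≠ v) →
          Ch G T (col G K T {v} ρ χ n) p' e' i := by
        intro i hi hj
        refine (hc'.take hi).agree ha subset_rfl fun j hji => ?_
        exact stay_fwd (Nat.zero_le i) (h1 ▸ h0T) (fun k _ hk h =>
          hE.closed _ h (hj k hk) _ (hc'.mem _ (by omega)) (hc'.iw.adj k (by omega))) j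
          (Nat.zero_le _) hji
      by_cases hex : ∃ i, i ≤ d' ∧ p' i = v
      · obtain ⟨i, hi, hiv⟩ := hex
        refine hb ⟨p', e', i, part i hi fun j hj hjv => ?_, h1, h2, Or.inr hiv⟩
        have := hc'.iw.inj j i (by omega) hi (by rw [hjv, hiv]); omega
      · push Not at hex
        have hc2 := part d' le_rfl fun j hj => hex j hj.le
        rcases h3 with h3 | h3
        · exact hb ⟨p', e', d', hc2, h1, h2, Or.inl h3⟩
        · exact hE.noW _ (hc2.mem d' le_rfl) h3

/-- in the free processes on the pieces, the roots show at most one colour -/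
def OneCol (G : SimpleGraph V) (K : ℕ) (C : Finset V) (A : V → Set V) (ρ : V → ℕ) (χ : V → Co)
    (n : ℕ) : Prop :=
  ∀ w ∈ C, ∀ w' ∈ C, ∀ c c', col G K (A w) ∅ ρ χ n w c → col G K (A w') ∅ ρ χ n w' c' → c = c'

lemma OneCol.mono {n n' : ℕ} (h : OneCol G K C A ρ χ n') (hn : n ≤ n') : OneCol G K C A ρ χ n :=
  fun w hw w' hw' c c' h1 h2 => h w hw w' hw' c c' (col_mono hn h1) (col_mono hn h2)

lemma arrive (hS : IsStar G v C A T) {σ : V → Co → Prop} {n : ℕ}
    (ha : ∀ w ∈ C, Agree G (A w) σ (col G K (A w) ∅ ρ χ n)) (hσ : ∀ z m, σ z m → z ∈ T)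
    {w : V} (hw : w ∈ C) {p : ℕ → V} {e : ℕ → Co} {i : ℕ} (hc : Ch G T σ p e (i + 1))
    (hp : ∀ j, j ≤ i → p j ∈ A w) (hv : p (i + 1) = v) (h0 : e 0 = sc G χ σ (p 0))
    (hρ : ρ (p 0) = n) (hb : ¬ Blocked G K (A w) ∅ χ (col G K (A w) ∅ ρ χ n) (p 0)) :
    ¬ OneCol G K C A ρ χ (n + 1) := by
  intro h1
  have hiw : p i = w := by
    rcases hS.closed w hw _ (hp i le_rfl) v hS.vT (hv ▸ hc.iw.adj i (by omega)) with h | h
    · exact absurd h (hS.vnot w hw)
    · exact h.2
  have hc2 := (hc.take (Nat.le_succ i)).agree (ha w hw) subset_rfl hp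
  have hg := hc2.gets (K := K) (W := ∅) (ρ := ρ) (χ := χ) (n := n)
    (by rw [h0, (ha w hw).sc (hp 0 (Nat.zero_le _))]) hρ hb le_rfl
  rw [hiw] at hg
  obtain ⟨hne, z, hz, hm⟩ := hc.step i (by omega)
  rw [hv] at hz
  have hzC := hS.nbr (hσ z _ hm) hz
  have := h1 w hw z hzC _ _ (Or.inr hg) (Or.inl (((ha z hzC).col z (hS.root z hzC) _).1 hm))
  exact co_ne_third _ _ hne.symm (by linear_combination this)

theorem first_attempt (hS : IsStar G v C A T) : ∀ n, OneCol G K C A ρ χ n →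
    ∀ w ∈ C, Agree G (A w) (col G K T {v} ρ χ n) (col G K (A w) ∅ ρ χ n) := by
  have upg : ∀ n, ∀ w ∈ C, (∀ u ∈ A w, ∀ c, col G K T {v} ρ χ n u c ↔ col G K (A w) ∅ ρ χ n u c) →
      Agree G (A w) (col G K T {v} ρ χ n) (col G K (A w) ∅ ρ χ n) := by
    intro n w hw h
    refine ⟨h, fun u hu m => ⟨?_, ?_⟩⟩
    · rintro ⟨z, hz, hc⟩
      rcases hS.closed w hw u hu z (col_mem hc).1 hz with h1 | h1
      · exact ⟨z, hz, (h z h1 m).1 hc⟩
      · exact absurd h1.1 (col_mem hc).2
    · rintro ⟨z, hz, hc⟩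
      exact ⟨z, hz, (h z (col_mem hc).1 m).2 hc⟩
  intro n
  induction n with
  | zero => intro _ w hw; exact upg 0 w hw fun _ _ _ => Iff.rfl
  | succ n ih =>
    intro h1 w hw
    have ha := ih (h1.mono (Nat.le_succ n))
    refine upg _ w hw fun u hu c => ?_
    rw [col_succ, col_succ, (ha w hw).col u hu]
    refine or_congr Iff.rfl ⟨?_, ?_⟩
    · rintro ⟨p, e, d, hc, h0, hρ, hb, rfl, rfl⟩
      have hA : ∀ i, i ≤ d → p i ∈ A w := stay_bwd hu fun i hi h => by
        rcases hS.closed w hw _ h _ (hc.mem i (by omega)) (hc.iw.adj i hi).symm with h2 | h2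
        · exact h2
        · exact absurd h2.1 (hc.notW_of_unblocked h0 hb hi.le)
      have h0A := hA 0 (Nat.zero_le _)
      refine ⟨p, e, d, hc.agree (ha w hw) subset_rfl hA, by rw [h0, (ha w hw).sc h0A], hρ, ?_,
        rfl, rfl⟩
      rintro ⟨p', e', d', hc', h1, h2, h3⟩
      rw [← (ha w hw).sc h0A] at h2
      exact hb ⟨p', e', d', hc'.agree (ha w hw).symm (hS.sub hw) hc'.mem, h1, h2,
        h3.imp id fun h => absurd h id⟩
    · rintro ⟨p, e, d, hc, h0, hρ, hb, rfl, rfl⟩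
      have h0A := hc.mem 0 (Nat.zero_le _)
      refine ⟨p, e, d, hc.agree (ha w hw).symm (hS.sub hw) hc.mem,
        by rw [h0, (ha w hw).sc h0A], hρ, ?_, rfl, rfl⟩
      rintro ⟨p', e', d', hc', h2, h3, h4⟩
      have part : ∀ i, i ≤ d' → (∀ j, j ≤ i → p' j ≠ v) → ∀ j, j ≤ i → p' j ∈ A w := by
        intro i hi hj j hji
        refine stay_fwd (Nat.zero_le i) (h2 ▸ h0A) (fun k _ hk h => ?_) j (Nat.zero_le _) hji
        rcases hS.closed w hw _ h _ (hc'.mem (k + 1) (by omega)) (hc'.iw.adj k (by omega)) with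
          h5 | h5
        · exact h5
        · exact absurd h5.1 (hj _ (by omega))
      by_cases hex : ∃ i, i ≤ d' ∧ p' i = v
      · obtain ⟨i, hi, hiv⟩ := hex
        cases i with
        | zero => exact hS.vnot w hw (by rw [← hiv, h2]; exact h0A)
        | succ i =>
          refine arrive hS ha (fun z m h => (col_mem h).1) hw (hc'.take hi)
            (part i (by omega) fun j hj hjv => ?_) hiv (by rw [h3, h2]) (by rw [h2, hρ])
            (by rw [h2]; exact hb) h1
          have := hc'.iw.inj j (i + 1) (by omega) hi (by rw [hjv, hiv]); omega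
      · push Not at hex
        have hc2 := hc'.agree (ha w hw) subset_rfl (part d' le_rfl hex)
        rcases h4 with h4 | h4
        · exact hb ⟨p', e', d', hc2, h2, by rw [h3, (ha w hw).sc h0A], Or.inl h4⟩
        · exact hex d' le_rfl h4

/-- nothing has yet tried to colour `v` -/
def Qt (G : SimpleGraph V) (K : ℕ) (v : V) (C : Finset V) (A : V → Set V) (ρ : V → ℕ) (χ : V → Co)
    (n : ℕ) : Prop := n ≤ ρ v ∧ OneCol G K C A ρ χ n

lemma Qt.mono {n n' : ℕ} (h : Qt G K v C A ρ χ n') (hn : n ≤ n') : Qt G K v C A ρ χ n :=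
  ⟨hn.trans h.1, h.2.mono hn⟩

theorem qt_unc (hS : IsStar G v C A T) : ∀ n, Qt G K v C A ρ χ n → Unc (col G K T ∅ ρ χ n) v := by
  intro n
  induction n with
  | zero => intro _ c; exact col_zero _ _
  | succ n ih =>
    intro hq
    have hq' := hq.mono (Nat.le_succ n)
    have hu := ih hq'
    have ha1 := restrict hS.emb hu (fun z hz _ h => absurd hz h) n le_rfl
    have ha : ∀ w ∈ C, Agree G (A w) (col G K T ∅ ρ χ n) (col G K (A w) ∅ ρ χ n) :=
      fun w hw => ha1.trans (first_attempt hS n hq'.2 w hw) (hS.sub hw)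
    rintro c (h | ⟨p, e, d, hc, h0, hρ, hb, hd, rfl⟩)
    · exact hu c h
    · cases d with
      | zero => rw [hd] at hρ; have := hq.1; omega
      | succ d =>
        have hw := hS.nbr (hc.mem d (by omega)) (hd ▸ (hc.iw.adj d (by omega)).symm)
        have hA : ∀ i, i ≤ d → p i ∈ A (p d) := stay_bwd (hS.root _ hw) fun i hi h => by
          rcases hS.closed _ hw _ h _ (hc.mem i (by omega)) (hc.iw.adj i (by omega)).symm with
            h2 | h2
          · exact h2
          · have := hc.iw.inj i (d + 1) (by omega) le_rfl (by rw [h2.1, hd]); omega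
        refine arrive hS ha (fun z m h => (col_mem h).1) hw hc hA hd h0 hρ ?_ hq.2
        rintro ⟨p', e', d', hc', h1, h2, h3⟩
        exact hb ⟨p', e', d', hc'.agree (ha _ hw).symm (hS.sub hw) hc'.mem, h1,
          by rw [h2, (ha _ hw).sc (hA 0 (Nat.zero_le _))], h3⟩

/-- a long chain hangs at the wall `v` -/
def Long (G : SimpleGraph V) (K L : ℕ) (T : Set V) (v : V) (ρ : V → ℕ) (χ : V → Co) (n : ℕ) :
    Prop := ∃ p c, Ch G T (col G K T {v} ρ χ n) p c (L + 1) ∧ p 0 = v

theorem attempt (hN : Nice G K ρ) {L : ℕ} (hK : 3 * L + 1 ≤ K) (hS : IsStar G v C A T)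
    (hE : Emb G v T S W) {t : ℕ} (hv : Unc (col G K S W ρ χ t) v)
    (hout : ∀ z ∈ S, G.Adj v z → z ∉ T → Unc (col G K S W ρ χ t) z)
    (hq : ¬ Qt G K v C A ρ χ t) :
    ∃ n, n < t ∧ Qt G K v C A ρ χ n ∧ (Long G K L T v ρ χ n ∨
      ∃ q c e, Ch G S (col G K S W ρ χ n) q c e ∧ q 0 = v ∧ (2 * L ≤ e ∨ q e ∈ W)) := by
  obtain ⟨n, hn, hq1, hq2⟩ : ∃ n, n < t ∧ Qt G K v C A ρ χ n ∧ ¬ Qt G K v C A ρ χ (n + 1) := by
    clear hv hout
    induction t with
    | zero => exact absurd ⟨Nat.zero_le _, fun _ _ _ _ _ _ h => absurd h (col_zero _ _)⟩ hq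
    | succ t ih =>
      by_cases h : Qt G K v C A ρ χ t
      · exact ⟨t, by omega, h, hq⟩
      · obtain ⟨n, h1, h2⟩ := ih h
        exact ⟨n, by omega, h2⟩
  refine ⟨n, hn, hq1, ?_⟩
  have ha1 := restrict hE hv hout n hn.le
  have ha : ∀ w ∈ C, Agree G (A w) (col G K S W ρ χ n) (col G K (A w) ∅ ρ χ n) :=
    fun w hw => ha1.trans (first_attempt hS n hq1.2 w hw) (hS.sub hw)
  have hvn : Unc (col G K S W ρ χ n) v := unc_mono hn.le hv
  by_cases hρ : n + 1 ≤ ρ v
  swap
  · have hρ' : ρ v = n := by have := hq1.1; omega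
    by_cases hb : Blocked G K S W χ (col G K S W ρ χ n) v
    · obtain ⟨p, e, d, hc, h1, _, h3⟩ := hb
      exact Or.inr ⟨p, e, d, hc, h1, h3.imp (fun h => by omega) id⟩
    · have := (ch_zero (G := G) (hE.sub hE.vT) hvn (sc G χ (col G K S W ρ χ n) v)).gets
        (K := K) (W := W) (ρ := ρ) (χ := χ) (n := n) rfl hρ' hb le_rfl
      exact absurd (col_mono (show n + 1 ≤ t from hn) (Or.inr this)) (hv _)
  have key : ∀ w ∈ C, ∀ w' ∈ C, ∀ c c', c ≠ c' →
      Gets G K (A w) ∅ ρ χ n (col G K (A w) ∅ ρ χ n) w c → col G K (A w') ∅ ρ χ n w' c' →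
      (Long G K L T v ρ χ n ∨
      ∃ q c e, Ch G S (col G K S W ρ χ n) q c e ∧ q 0 = v ∧ (2 * L ≤ e ∨ q e ∈ W)) := by
    rintro w hw w' hw' c c' hne ⟨p, e, d, hc, h0, hρ, hb, hd, rfl⟩ hc'
    have h0A := hc.mem 0 (Nat.zero_le _)
    have hc1 := hc.agree (ha w hw).symm ((hS.sub hw).trans hE.sub) hc.mem
    have hc2 := hc1.snoc (z := v) (m := c') (hd ▸ (hS.adj w hw).symm)
      (fun i hi h => hS.vnot w hw (h ▸ hc.mem i hi)) (hE.sub hE.vT) hvn
      ⟨w', hS.adj w' hw', ((ha w' hw').col _ (hS.root w' hw') _).2 hc'⟩ hne.symm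
    by_cases hb' : Blocked G K S W χ (col G K S W ρ χ n) (p 0)
    swap
    · have e0 : snoc p d v 0 = p 0 := snoc_le _ _ (Nat.zero_le _)
      have := hc2.gets (K := K) (W := W) (ρ := ρ) (χ := χ) (n := n)
        (by rw [e0, snoc_le _ _ (Nat.zero_le _), h0, (ha w hw).sc h0A]) (by rw [e0, hρ])
        (by rw [e0]; exact hb') le_rfl
      rw [snoc_last] at this
      exact absurd (col_mono (show n + 1 ≤ t from hn) (Or.inr this)) (hv _)
    obtain ⟨p', e', d', hc', h1, h2, h3⟩ := hb'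
    have part : ∀ i, i ≤ d' → (∀ j, j ≤ i → p' j ≠ v) → ∀ j, j ≤ i → p' j ∈ A w := by
      intro i hi hj j hji
      refine stay_fwd (Nat.zero_le i) (h1 ▸ h0A) (fun k _ hk h => ?_) j (Nat.zero_le _) hji
      have hT := hE.closed _ (hS.sub hw h) (hj k hk.le) _ (hc'.mem (k + 1) (by omega))
        (hc'.iw.adj k (by omega))
      rcases hS.closed w hw _ h _ hT (hc'.iw.adj k (by omega)) with h5 | h5
      · exact h5
      · exact absurd h5.1 (hj _ (by omega))
    by_cases hex : ∃ i, i ≤ d' ∧ p' i = v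
    · obtain ⟨i, hi, hiv⟩ := hex
      by_cases hL : L + 2 ≤ i
      · left
        refine ⟨fun j => p' (i - j), fun j => e' (i - j - 1),
          (hc'.rev i (L + 1) hi hL).agree ha1 subset_rfl fun j hj => ?_, hiv⟩
        by_cases hj0 : j = 0
        · subst hj0; exact hiv ▸ hE.vT
        · refine hS.sub hw (part (i - 1) (by omega) (fun k hk hkv => ?_) _ (by omega))
          have := hc'.iw.inj k i (by omega) hi (by rw [hkv, hiv]); omega
      · right
        refine ⟨fun j => p' (i + j), fun j => e' (i + j), d' - i, hc'.drop i _ (by omega), hiv, ?_⟩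
        rcases h3 with h3 | h3
        · left; omega
        · right; simpa [show i + (d' - i) = d' by omega] using h3
    · push Not at hex
      have hA := part d' le_rfl hex
      rcases h3 with h3 | h3
      · exact absurd ⟨p', e', d', hc'.agree (ha w hw) subset_rfl hA, h1,
          by rw [h2, (ha w hw).sc h0A], Or.inl h3⟩ hb
      · exact absurd h3 (hE.noW _ (hS.sub hw (hA d' le_rfl)))
  have hq3 : ¬ OneCol G K C A ρ χ (n + 1) := fun h => hq2 ⟨hρ, h⟩
  unfold OneCol at hq3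
  push Not at hq3
  obtain ⟨w, hw, w', hw', c, c', h1, h2, hne⟩ := hq3
  rcases h1 with h1 | h1 <;> rcases h2 with h2 | h2
  · exact absurd (hq1.2 w hw w' hw' c c' h1 h2) hne
  · exact key w' hw' w hw c' c hne.symm h2 h1
  · exact key w hw w' hw' c c' hne h1 h2
  · exfalso
    by_cases hww : w = w'
    · subst hww
      exact hne ((col_inv (S := A w) (W := ∅) (χ := χ) hN (n + 1)).uniq w c c' (Or.inr h1)
        (Or.inr h2))
    · obtain ⟨p, e, d, hc, h0, hρ, hb, hd, -⟩ := h1
      obtain ⟨p', e', d', hc', h0', hρ', hb', hd', -⟩ := h2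
      have l1 := hc.lt_of_unblocked h0 hb
      have l2 := hc'.lt_of_unblocked h0' hb'
      have n1 := hc.near le_rfl
      have n2 := hc'.near le_rfl
      rw [hd] at n1
      rw [hd'] at n2
      have := hN.sep (p 0) (p' 0) (by rw [hρ, hρ'])
        ((((n1.adj (hS.adj w hw).symm).adj (hS.adj w' hw')).trans n2.symm).mono (by omega))
      exact Set.disjoint_left.1 (hS.disj w hw w' hw' hww) (hc.mem 0 (Nat.zero_le _))
        (this ▸ hc'.mem 0 (Nat.zero_le _))

theorem side_entry {L n : ℕ} (hE : Emb G v T S W) {σ : V → Co → Prop}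
    (ha : Agree G T σ (col G K T {v} ρ χ n)) {q : ℕ → V} {c : ℕ → Co} {e i : ℕ}
    (hc : Ch G S σ q c e) (he : 2 * L ≤ e ∨ q e ∈ W) (hi : i < L) (hie : i < e) (hv : q i = v)
    (hT : q (i + 1) ∈ T) : Long G K L T v ρ χ n := by
  have hin : ∀ j, i + 1 ≤ j → j ≤ e → q j ∈ T := stay_fwd hie hT fun k hk hke h =>
    hE.closed _ h (fun hkv => by
      have := hc.iw.inj k i (by omega) (by omega) (by rw [hkv, hv]); omega) _
      (hc.mem _ (by omega)) (hc.iw.adj k hke)
  have h2 : 2 * L ≤ e := he.resolve_right (hE.noW _ (hin e hie le_rfl))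
  refine ⟨fun j => q (i + j), fun j => c (i + j),
    (hc.drop i (L + 1) (by omega)).agree ha subset_rfl fun j hj => ?_, hv⟩
  by_cases hj0 : j = 0
  · subst hj0; exact hv ▸ hE.vT
  · exact hin _ (by omega) (by omega)

theorem unc_qt (hN : Nice G K ρ) {L : ℕ} (hL : 1 ≤ L) (hK : 3 * L + 1 ≤ K) (hS : IsStar G v C A T)
    {t : ℕ} (hv : Unc (col G K T ∅ ρ χ t) v) :
    Qt G K v C A ρ χ t ∨ ∃ n, n < t ∧ Long G K L T v ρ χ n := by
  by_cases hq : Qt G K v C A ρ χ t
  · exact Or.inl hq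
  right
  obtain ⟨n, hn, -, h | ⟨q, c, e, hc, h0, he⟩⟩ :=
    attempt hN hK hS hS.emb hv (fun z hz _ h => absurd hz h) hq
  · exact ⟨n, hn, h⟩
  · have h2 : 2 * L ≤ e := he.resolve_right id
    exact ⟨n, hn, side_entry hS.emb (restrict hS.emb hv (fun z hz _ h => absurd hz h) n hn.le) hc he
      (i := 0) (by omega) (by omega) h0 (hc.mem _ (by omega))⟩

theorem localize : ∀ (n : ℕ) (u : V), (∀ z, Near G ((2 * K + 1) * n) u z → z ∈ S) →
    ∀ c, col G K S ∅ ρ χ n u c ↔ col G K Set.univ ∅ ρ χ n u c := by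
  have key : ∀ {S1 S2 : Set V} {σ1 σ2 : V → Co → Prop} (n : ℕ) (u : V) (c : Co),
      Agree G {y | Near G (2 * K) u y} σ1 σ2 → {y | Near G (2 * K) u y} ⊆ S1 →
      {y | Near G (2 * K) u y} ⊆ S2 →
      Gets G K S1 ∅ ρ χ n σ1 u c → Gets G K S2 ∅ ρ χ n σ2 u c := by
    rintro S1 S2 σ1 σ2 n u c ha h1 h2 ⟨p, e, d, hc, h0, hρ, hb, rfl, rfl⟩
    have hd := hc.lt_of_unblocked h0 hb
    have n0 := (hc.near le_rfl).symm
    have h0B : p 0 ∈ {y | Near G (2 * K) (p d) y} := n0.mono (by omega)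
    refine ⟨p, e, d, hc.agree ha h2 fun i hi => (n0.trans (hc.near hi)).mono (by omega),
      by rw [h0, ha.sc h0B], hρ, ?_, rfl, rfl⟩
    rintro ⟨p', e', d', hc', h3, h4, h5⟩
    have h6 : d' = K := h5.resolve_right id
    refine hb ⟨p', e', d', hc'.agree ha.symm h1 fun i hi => ?_, h3, by rw [h4, ha.sc h0B], h5⟩
    exact (n0.trans (h3 ▸ hc'.near hi)).mono (by omega)
  intro n
  induction n with
  | zero => intro _ _ _; rfl
  | succ n ih =>
    intro u hu c
    have h1 : ∀ y, Near G (2 * K + 1) u y → ∀ c,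
        col G K S ∅ ρ χ n y c ↔ col G K Set.univ ∅ ρ χ n y c := fun y hy =>
      ih y fun z hz => hu z ((hy.trans hz).mono (by ring_nf; omega))
    have ha : Agree G {y | Near G (2 * K) u y} (col G K S ∅ ρ χ n) (col G K Set.univ ∅ ρ χ n) :=
      ⟨fun y hy => h1 y (Near.mono hy (by omega)), fun y hy m =>
        exists_congr fun z => and_congr_right fun hz => h1 z (Near.adj hy hz) m⟩
    have hS : {y | Near G (2 * K) u y} ⊆ S := fun y hy => hu y (Near.mono hy (by ring_nf; omega))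
    rw [col_succ, col_succ, h1 u (near_refl _ _)]
    exact or_congr Iff.rfl ⟨key n u c ha hS (Set.subset_univ _),
      key n u c ha.symm (Set.subset_univ _) hS⟩

end Pool.Agent.MP_d802e4_co

end

-- part MP_d802e4_co.Ann
section

/-!
A weighted sum over annotations of a path, its deterministic lower bound and its expectation.
-/

set_option autoImplicit false

namespace Pool.Agent.MP_d802e4_co

open Finset

noncomputable section

/-- weighted sum over all annotations of the positions `j, ..., j + r - 1` -/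
def X (k : ℕ) (lam mu : ℝ) (bad : ℕ → Prop) (reg : ℕ → ℕ → Co → Prop) :
    ℕ → ℕ → Option (ℕ × Co) → ℝ
  | 0, _, _ => 1
  | r + 1, j, st => (ind (bad j) * mu + lam) * X k lam mu bad reg r (j + 1) none +
      ∑ a ∈ range k, ∑ c : Co, ∑ c' : Co, ind (c ≠ c' ∧ reg j a (-c - c')) *
        ((if st = some (a, c) then 1 else lam) * X k lam mu bad reg r (j + 1) (some (a, c')))

variable {k : ℕ} {lam mu : ℝ} {bad : ℕ → Prop} {reg : ℕ → ℕ → Co → Prop}

lemma X_nonneg (hl : 0 ≤ lam) (hm : 0 ≤ mu) : ∀ r j st, 0 ≤ X k lam mu bad reg r j st := by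
  intro r
  induction r with
  | zero => intro j st; exact zero_le_one
  | succ r ih =>
    intro j st
    unfold X
    refine add_nonneg (mul_nonneg (add_nonneg (mul_nonneg (ind_nonneg _) hm) hl) (ih _ _)) ?_
    refine sum_nonneg fun a _ => sum_nonneg fun c _ => sum_nonneg fun c' _ => ?_
    refine mul_nonneg (ind_nonneg _) (mul_nonneg ?_ (ih _ _))
    split_ifs
    · exact zero_le_one
    · exact hl

lemma X_ge_free (hl : 0 ≤ lam) (hm : 0 ≤ mu) (r j : ℕ) (st : Option (ℕ × Co)) :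
    (ind (bad j) * mu + lam) * X k lam mu bad reg r (j + 1) none ≤
      X k lam mu bad reg (r + 1) j st := by
  rw [X]
  refine le_add_of_nonneg_right ?_
  refine sum_nonneg fun a _ => sum_nonneg fun c _ => sum_nonneg fun c' _ => ?_
  refine mul_nonneg (ind_nonneg _) (mul_nonneg ?_ (X_nonneg hl hm _ _ _))
  split_ifs
  · exact zero_le_one
  · exact hl

lemma X_ge_reg (hl : 0 ≤ lam) (hm : 0 ≤ mu) (r j : ℕ) (st : Option (ℕ × Co)) {a : ℕ} (ha : a < k)
    {c c' : Co} (hc : c ≠ c') (hr : reg j a (-c - c')) :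
    (if st = some (a, c) then 1 else lam) * X k lam mu bad reg r (j + 1) (some (a, c')) ≤
      X k lam mu bad reg (r + 1) j st := by
  rw [X]
  have nn : ∀ (a : ℕ) (c c' : Co), 0 ≤ ind (c ≠ c' ∧ reg j a (-c - c')) *
      ((if st = some (a, c) then 1 else lam) * X k lam mu bad reg r (j + 1) (some (a, c'))) := by
    intro a c c'
    refine mul_nonneg (ind_nonneg _) (mul_nonneg ?_ (X_nonneg hl hm _ _ _))
    split_ifs
    · exact zero_le_one
    · exact hl
  refine le_add_of_nonneg_of_le (mul_nonneg (add_nonneg (mul_nonneg (ind_nonneg _) hm) hl)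
    (X_nonneg hl hm _ _ _)) ?_
  refine le_trans ?_ (single_le_sum (fun a _ => sum_nonneg fun c _ => sum_nonneg fun c' _ =>
    nn a c c') (mem_range.2 ha))
  refine le_trans ?_ (single_le_sum (fun c _ => sum_nonneg fun c' _ => nn a c c') (mem_univ c))
  refine le_trans ?_ (single_le_sum (fun c' _ => nn a c c') (mem_univ c'))
  rw [ind_pos ⟨hc, hr⟩, one_mul]

/-- the positions `j, ..., j + r - 1` have an annotation of weight at least `w` -/
def Good (k : ℕ) (lam mu : ℝ) (bad : ℕ → Prop) (reg : ℕ → ℕ → Co → Prop) (j r : ℕ) (w : ℝ) :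
    Prop :=
  ∀ r' y, 0 ≤ y → (∀ st, y ≤ X k lam mu bad reg r' (j + r) st) →
    ∀ st, w * y ≤ X k lam mu bad reg (r' + r) j st

lemma good_zero (j : ℕ) : Good k lam mu bad reg j 0 1 := by
  intro r' y _ h st
  simpa using h st

lemma Good.weaken {j r : ℕ} {w w' : ℝ} (h : Good k lam mu bad reg j r w) (hw : w' ≤ w) :
    Good k lam mu bad reg j r w' := fun r' y hy hX st =>
  (mul_le_mul_of_nonneg_right hw hy).trans (h r' y hy hX st)

lemma Good.comp {j r1 r2 : ℕ} {w1 w2 : ℝ} (h1 : Good k lam mu bad reg j r1 w1)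
    (h2 : Good k lam mu bad reg (j + r1) r2 w2) (hw : 0 ≤ w2) :
    Good k lam mu bad reg j (r1 + r2) (w1 * w2) := by
  intro r' y hy hX st
  rw [mul_assoc, show r' + (r1 + r2) = (r' + r2) + r1 by ring]
  exact h1 _ _ (mul_nonneg hw hy) (h2 r' y hy (by simpa only [add_assoc] using hX)) st

lemma good_free (hl : 0 ≤ lam) (hm : 0 ≤ mu) (j : ℕ) : Good k lam mu bad reg j 1 lam := by
  intro r' y hy hX st
  refine le_trans ?_ (X_ge_free hl hm r' j st)
  exact mul_le_mul (le_add_of_nonneg_left (mul_nonneg (ind_nonneg _) hm)) (hX _) hy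
    (add_nonneg (mul_nonneg (ind_nonneg _) hm) hl)

lemma good_bad (hl : 0 ≤ lam) (hm : 0 ≤ mu) {j : ℕ} (h : bad j) :
    Good k lam mu bad reg j 1 mu := by
  intro r' y hy hX st
  refine le_trans ?_ (X_ge_free hl hm r' j st)
  rw [ind_pos h, one_mul]
  exact mul_le_mul (le_add_of_nonneg_right hl) (hX _) hy (add_nonneg hm hl)

lemma good_seg (hl : 0 ≤ lam) (hl1 : lam ≤ 1) (hm : 0 ≤ mu) {a : ℕ} (ha : a < k) (c : ℕ → Co)
    (r j : ℕ) (h : ∀ i, j ≤ i → i < j + r → c i ≠ c (i + 1) ∧ reg i a (-c i - c (i + 1))) :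
    Good k lam mu bad reg j r lam := by
  intro r' y hy
  have key : ∀ r j, (∀ i, j ≤ i → i < j + r → c i ≠ c (i + 1) ∧ reg i a (-c i - c (i + 1))) →
      (∀ st, y ≤ X k lam mu bad reg r' (j + r) st) →
      ∀ st, (if st = some (a, c j) then 1 else lam) * y ≤ X k lam mu bad reg (r' + r) j st := by
    intro r
    induction r with
    | zero =>
      intro j _ hX st
      refine le_trans ?_ (hX st)
      split_ifs
      · simp
      · nlinarith
    | succ r ih =>
      intro j h hX st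
      have h1 := h j le_rfl (by omega)
      refine le_trans ?_ (X_ge_reg hl hm (r' + r) j st ha h1.1 h1.2)
      have := ih (j + 1) (fun i h1 h2 => h i (by omega) (by omega))
        (by simpa only [add_assoc, add_comm 1] using hX) (some (a, c (j + 1)))
      rw [if_pos rfl, one_mul] at this
      refine mul_le_mul_of_nonneg_left this ?_
      split_ifs
      · exact zero_le_one
      · exact hl
  intro hX st
  refine le_trans (mul_le_mul_of_nonneg_right ?_ hy) (key r j h hX st)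
  split_ifs
  · exact hl1
  · exact le_rfl

/-- the colours seen on `[lo, hi)` at level `a` let a chain pass -/
def Thread (Sz : ℕ → ℕ → Co → Prop) (a lo hi : ℕ) : Prop :=
  ∃ c : ℕ → Co, ∀ i, lo ≤ i → i < hi → c i ≠ c (i + 1) ∧ Sz i a (-c i - c (i + 1))

lemma Thread.mono {Sz : ℕ → ℕ → Co → Prop} {a lo hi lo' hi' : ℕ} (h : Thread Sz a lo hi)
    (h1 : lo ≤ lo') (h2 : hi' ≤ hi) : Thread Sz a lo' hi' := by
  obtain ⟨c, hc⟩ := h
  exact ⟨c, fun i h3 h4 => hc i (by omega) (by omega)⟩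

/-- each position of `[lo, hi)` sends a chain to one of the two ends -/
def Prop_star (k : ℕ) (Q : ℕ → ℕ → Prop) (Sz : ℕ → ℕ → Co → Prop) (a0 lo hi : ℕ) : Prop :=
  ∀ j, lo ≤ j → j < hi → ∃ a, a0 ≤ a ∧ a < k ∧ (∀ a', a' ≤ a → Q j a') ∧
    (Thread Sz a (j + 1) hi ∨ Thread Sz a lo j)

lemma good_piece (hl : 0 ≤ lam) (hl1 : lam ≤ 1) (hm : 0 ≤ mu) {Q : ℕ → ℕ → Prop}
    {Sz : ℕ → ℕ → Co → Prop} : ∀ u a0 lo r, a0 + u = k → Prop_star k Q Sz a0 lo (lo + r) →
    Good k lam mu bad (fun j a m => Q j a ∧ Sz j a m) lo r (lam ^ (4 * u)) := by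
  classical
  intro u
  induction u with
  | zero =>
    intro a0 lo r hk h
    cases r with
    | zero => simpa using good_zero lo
    | succ r =>
      obtain ⟨a, h1, h2, -⟩ := h lo le_rfl (by omega)
      omega
  | succ u ih =>
    intro a0 lo r hk h
    have ha0 : a0 < k := by omega
    have hQ : ∀ j, lo ≤ j → j < lo + r → Q j a0 := fun j h1 h2 => by
      obtain ⟨a, h3, -, h4, -⟩ := h j h1 h2
      exact h4 a0 h3
    have seg : ∀ j s, lo ≤ j → j + s ≤ lo + r → Thread Sz a0 j (j + s) →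
        Good k lam mu bad (fun j a m => Q j a ∧ Sz j a m) j s lam := by
      rintro j s h1 h2 ⟨c, hc⟩
      exact good_seg hl hl1 hm ha0 c s j fun i h3 h4 =>
        ⟨(hc i h3 h4).1, hQ i (by omega) (by omega), (hc i h3 h4).2⟩
    have hl2 : lam * lam ≤ 1 := by nlinarith
    obtain ⟨r1, hr1, g1, n1⟩ : ∃ r1, r1 ≤ r ∧
        Good k lam mu bad (fun j a m => Q j a ∧ Sz j a m) lo r1 (lam * lam) ∧
        ∀ j, lo + r1 ≤ j → j < lo + r → ¬ Thread Sz a0 lo j := by
      by_cases hex : ∃ s, s < r ∧ Thread Sz a0 lo (lo + s)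
      · obtain ⟨s0, hs0⟩ := hex
        have hs := Nat.findGreatest_spec (P := fun s => s < r ∧ Thread Sz a0 lo (lo + s))
          (n := r) hs0.1.le hs0
        set s := Nat.findGreatest (fun s => s < r ∧ Thread Sz a0 lo (lo + s)) r with hsdef
        refine ⟨s + 1, hs.1, (seg lo s le_rfl (by omega) hs.2).comp (good_free hl hm _) hl, ?_⟩
        intro j h1 h2 hT
        have := Nat.le_findGreatest (P := fun s => s < r ∧ Thread Sz a0 lo (lo + s)) (n := r)
          (m := j - lo) (by omega) ⟨by omega, by rwa [show lo + (j - lo) = j by omega]⟩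
        omega
      · refine ⟨0, Nat.zero_le _, (good_zero lo).weaken hl2, fun j h1 h2 hT => hex
          ⟨j - lo, by omega, by rwa [show lo + (j - lo) = j by omega]⟩⟩
    obtain ⟨r2, hr2, g3, n3⟩ : ∃ r2, r1 + r2 ≤ r ∧
        Good k lam mu bad (fun j a m => Q j a ∧ Sz j a m) (lo + r1 + r2) (r - r1 - r2)
          (lam * lam) ∧
        ∀ j, lo + r1 ≤ j → j < lo + r1 + r2 → ¬ Thread Sz a0 (j + 1) (lo + r) := by
      by_cases hex : ∃ s, r1 + s < r ∧ Thread Sz a0 (lo + r1 + s + 1) (lo + r)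
      · have hs := Nat.find_spec hex
        set s := Nat.find hex with hsdef
        refine ⟨s, hs.1.le, ?_, ?_⟩
        · have := (good_free (k := k) (bad := bad) (reg := fun j a m => Q j a ∧ Sz j a m) hl hm
            (lo + r1 + s)).comp (seg (lo + r1 + s + 1) (r - r1 - s - 1) (by omega) (by omega)
            (hs.2.mono le_rfl (by omega))) hl
          rwa [show 1 + (r - r1 - s - 1) = r - r1 - s by omega] at this
        · intro j h1 h2 hT
          have := Nat.find_min' hex (m := j - (lo + r1))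
            ⟨by omega, by rwa [show lo + r1 + (j - (lo + r1)) = j by omega]⟩
          omega
      · refine ⟨r - r1, by omega, ?_, fun j h1 h2 hT => hex
          ⟨j - (lo + r1), by omega, by rwa [show lo + r1 + (j - (lo + r1)) = j by omega]⟩⟩
        rw [Nat.sub_self]
        exact (good_zero _).weaken hl2
    have g2 := ih (a0 + 1) (lo + r1) r2 (by omega) fun j h1 h2 => by
      obtain ⟨a, h3, h4, h5, h6⟩ := h j (by omega) (by omega)
      refine ⟨a, ?_, h4, h5, h6.imp (fun h => h.mono le_rfl (by omega))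
        (fun h => h.mono (by omega) le_rfl)⟩
      by_contra hc
      have : a = a0 := by omega
      subst this
      exact h6.elim (n3 j h1 h2) (n1 j h1 (by omega))
    have := (g1.comp g2 (pow_nonneg hl _)).comp (by simpa only [add_assoc] using g3)
      (mul_nonneg hl hl)
    rw [show r1 + r2 + (r - r1 - r2) = r by omega] at this
    convert this using 1
    ring

lemma good_window (hl : 0 < lam) (hl1 : lam ≤ 1) (hm : mu * lam ^ (4 * k) = 1) {Q : ℕ → ℕ → Prop}
    {Sz : ℕ → ℕ → Co → Prop} {L lo0 hi0 : ℕ}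
    (h : ∀ lo r, lo0 ≤ lo → lo + r ≤ hi0 → r ≤ L → (∀ j, lo ≤ j → j < lo + r → ¬ bad j) →
      Prop_star k Q Sz 0 lo (lo + r)) :
    ∀ r lo, lo0 ≤ lo → lo + r ≤ hi0 → r ≤ L →
      Good k lam mu bad (fun j a m => Q j a ∧ Sz j a m) lo r (lam ^ (4 * k)) := by
  classical
  have hp : 0 < lam ^ (4 * k) := pow_pos hl _
  have hm0 : 0 ≤ mu := by
    by_contra hc
    push Not at hc
    nlinarith
  intro r
  induction r using Nat.strong_induction_on with
  | _ r ih =>
    intro lo h1 h2 h3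
    by_cases hex : ∃ s, s < r ∧ bad (lo + s)
    · have hs := Nat.find_spec hex
      set s := Nat.find hex with hsdef
      have g1 := good_piece (bad := bad) hl.le hl1 hm0 k 0 lo s (by omega)
        (h lo s h1 (by omega) (by omega) fun j h4 h5 hb => by
          have := Nat.find_min' hex (m := j - lo)
            ⟨by omega, by rwa [show lo + (j - lo) = j by omega]⟩
          omega)
      have g2 := good_bad (k := k) (reg := fun j a m => Q j a ∧ Sz j a m) hl.le hm0 hs.2
      have g3 := ih (r - s - 1) (by omega) (lo + s + 1) (by omega) (by omega) (by omega)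
      have := (g1.comp g2 hm0).comp (by simpa only [add_assoc] using g3) hp.le
      rw [show s + 1 + (r - s - 1) = r by omega, mul_assoc, hm, mul_one] at this
      exact this
    · exact good_piece hl.le hl1 hm0 k 0 lo r (by omega) (h lo r h1 h2 h3 fun j h4 h5 hb =>
        hex ⟨j - lo, by omega, by rwa [show lo + (j - lo) = j by omega]⟩)

lemma X_lower (hl : 0 < lam) (hl1 : lam ≤ 1) (hm : mu * lam ^ (4 * k) = 1) {Q : ℕ → ℕ → Prop}
    {Sz : ℕ → ℕ → Co → Prop} {L M : ℕ}
    (h : ∀ lo r, 1 ≤ lo → lo + r ≤ M * L + 1 → r ≤ L → (∀ j, lo ≤ j → j < lo + r → ¬ bad j) →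
      Prop_star k Q Sz 0 lo (lo + r)) :
    1 ≤ mu ^ M * X k lam mu bad (fun j a m => Q j a ∧ Sz j a m) (M * L) 1 none := by
  have hp : 0 < lam ^ (4 * k) := pow_pos hl _
  have hm0 : 0 ≤ mu := by
    by_contra hc
    push Not at hc
    nlinarith
  have key : ∀ M', M' ≤ M → Good k lam mu bad (fun j a m => Q j a ∧ Sz j a m) 1 (M' * L)
      ((lam ^ (4 * k)) ^ M') := by
    intro M'
    induction M' with
    | zero => intro _; simpa using good_zero 1
    | succ M' ih =>
      intro hM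
      have h1 : (M' + 1) * L ≤ M * L := Nat.mul_le_mul_right _ hM
      have := (ih (by omega)).comp (good_window hl hl1 hm h L (1 + M' * L) (by omega)
        (by nlinarith) le_rfl) hp.le
      rwa [← pow_succ, show M' * L + L = (M' + 1) * L by ring] at this
  have := key M le_rfl 0 1 zero_le_one (fun st => le_rfl) none
  rw [mul_one, zero_add] at this
  calc (1 : ℝ) = mu ^ M * (lam ^ (4 * k)) ^ M := by rw [← mul_pow, hm, one_pow]
    _ ≤ _ := mul_le_mul_of_nonneg_left this (pow_nonneg hm0 _)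

section expectation

variable {V Λ : Type*} [Fintype V] [DecidableEq V] [Fintype Λ] {p : Λ → ℝ}

omit [Fintype V] [DecidableEq V] [Fintype Λ] in
lemma X_dep {B : (V → Λ) → ℕ → Prop} {R : (V → Λ) → ℕ → ℕ → Co → Prop} {ω ω' : V → Λ} :
    ∀ r j st, (∀ i, j ≤ i → i < j + r → B ω i = B ω' i ∧ R ω i = R ω' i) →
      X k lam mu (B ω) (R ω) r j st = X k lam mu (B ω') (R ω') r j st := by
  intro r
  induction r with
  | zero => intro j st _; rfl
  | succ r ih =>
    intro j st h
    have h1 := h j le_rfl (by omega)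
    have h2 := fun st => ih (j + 1) st fun i h3 h4 => h i (by omega) (by omega)
    simp only [X, h1.1, h1.2, h2]

lemma kappa_sum (_hl : 0 ≤ lam) {r0 : ℝ} (hr : 0 ≤ r0) (st : Option (ℕ × Co)) :
    ∑ a ∈ range k, ∑ c : Co, ∑ c' : Co,
      ((if st = some (a, c) then (if c ≠ c' then r0 else 0) else 0) + lam) ≤
      2 * r0 + 9 * k * lam := by
  simp only [sum_add_distrib, sum_const, card_univ, ZMod.card, card_range, nsmul_eq_mul]
  refine add_le_add ?_ (le_of_eq (by push_cast; ring))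
  cases st with
  | none => simp; linarith
  | some x =>
    obtain ⟨a0, c0⟩ := x
    have h1 : ∀ a c, ∑ c' : Co, (if some (a0, c0) = some (a, c) then (if c ≠ c' then r0 else 0)
        else 0) = if a = a0 then (if c = c0 then 2 * r0 else 0) else 0 := by
      intro a c
      by_cases ha : a = a0 <;> by_cases hc : c = c0
      · subst ha hc
        simp only [if_true]
        rw [← sum_filter, sum_const, nsmul_eq_mul]
        have : (univ.filter (fun c' : Co => c ≠ c')).card = 2 := by revert c; decide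
        rw [this]; norm_num
      · simp [ha, hc, Ne.symm hc]
      · simp [ha, Ne.symm ha]
      · simp [ha, Ne.symm ha]
    simp only [h1]
    have h2 : ∀ a, ∑ c : Co, (if a = a0 then (if c = c0 then 2 * r0 else 0) else 0) =
        if a = a0 then 2 * r0 else 0 := by
      intro a; by_cases ha : a = a0 <;> simp [ha]
    simp only [h2]
    rw [sum_ite_eq']
    split_ifs <;> linarith

lemma Ex_X (hp : IsP p) (hl : 0 ≤ lam) (hm : 0 ≤ mu) {η r0 : ℝ} (hη : 0 ≤ η) (hr : 0 ≤ r0)
    {B : (V → Λ) → ℕ → Prop} {R : (V → Λ) → ℕ → ℕ → Co → Prop} {T : ℕ → Set V} {hi : ℕ}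
    (hB : ∀ i, 1 ≤ i → i < hi → Dep (T i) (fun ω => B ω i))
    (hR : ∀ i, 1 ≤ i → i < hi → Dep (T i) (fun ω => R ω i))
    (hT : ∀ i j, 1 ≤ i → i < j → j < hi → Disjoint (T i) (T j))
    (pB : ∀ i, 1 ≤ i → i < hi → Pr p (fun ω => B ω i) ≤ η)
    (pR : ∀ i a m, 1 ≤ i → i < hi → a < k → Pr p (fun ω => R ω i a m) ≤ r0) :
    ∀ r j st, 1 ≤ j → j + r ≤ hi → Ex p (fun ω => X k lam mu (B ω) (R ω) r j st) ≤
      (η * mu + lam + (2 * r0 + 9 * k * lam)) ^ r := by
  intro r
  induction r with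
  | zero => intro j st _ _; simp only [X, Ex_const hp, pow_zero, le_refl]
  | succ r ih =>
    intro j st hj hjr
    set θ := η * mu + lam + (2 * r0 + 9 * k * lam) with hθ
    have hθ0 : 0 ≤ θ ^ r := pow_nonneg (by positivity) _
    have dX : ∀ st, Dep (⋃ i ∈ Set.Ico (j + 1) (j + 1 + r), T i)
        (fun ω => X k lam mu (B ω) (R ω) r (j + 1) st) := by
      intro st ω ω' h
      refine X_dep r (j + 1) st fun i h1 h2 => ?_
      have h3 : ∀ v ∈ T i, ω v = ω' v := fun v hv => h v (Set.mem_biUnion ⟨h1, h2⟩ hv)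
      exact ⟨hB i (by omega) (by omega) ω ω' h3, hR i (by omega) (by omega) ω ω' h3⟩
    have dj : Disjoint (T j) (⋃ i ∈ Set.Ico (j + 1) (j + 1 + r), T i) := by
      simp only [Set.disjoint_iUnion_right]
      intro i hi'
      exact hT j i hj (by have := hi'.1; omega) (by have := hi'.2; omega)
    have eX := fun st => ih (j + 1) st (by omega) (by omega)
    have eX0 : ∀ st, 0 ≤ Ex p (fun ω => X k lam mu (B ω) (R ω) r (j + 1) st) :=
      fun st => Ex_nonneg hp fun ω => X_nonneg hl hm _ _ _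
    simp only [X]
    rw [Ex_add, pow_succ, mul_comm (θ ^ r), hθ, add_mul _ (2 * r0 + 9 * k * lam)]
    refine add_le_add ?_ ?_
    · rw [Ex_mul hp (((hB j hj (by omega)).comp (fun P => ind P * mu + lam))) (dX none) dj]
      refine mul_le_mul ?_ (eX _) (eX0 _) (by positivity)
      rw [Ex_add, Ex_const hp]
      simp only [mul_comm _ mu]
      rw [Ex_smul]
      have := pB j hj (by omega)
      unfold Pr at this
      nlinarith
    · refine le_trans ?_ (mul_le_mul_of_nonneg_right (kappa_sum hl hr st) hθ0)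
      rw [Ex_sum, sum_mul]
      refine sum_le_sum fun a ha => ?_
      rw [Ex_sum, sum_mul]
      refine sum_le_sum fun c _ => ?_
      rw [Ex_sum, sum_mul]
      refine sum_le_sum fun c' _ => ?_
      rw [Ex_mul hp (((hR j hj (by omega)).comp (fun P => ind (c ≠ c' ∧ P a (-c - c')))))
        ((dX (some (a, c'))).comp (fun x => (if st = some (a, c) then 1 else lam) * x)) dj,
        Ex_smul, ← mul_assoc]
      refine mul_le_mul ?_ (eX _) (eX0 _) (by positivity)
      have h1 : Ex p (fun ω => ind (c ≠ c' ∧ R ω j a (-c - c'))) ≤ 1 := Pr_le_one hp _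
      split_ifs with h2 h3
      · have := pR j a (-c - c') hj (by omega) (mem_range.1 ha)
        have h4 : Pr p (fun ω => c ≠ c' ∧ R ω j a (-c - c')) ≤ _ := Pr_mono hp fun ω h => h.2
        unfold Pr at h4 this
        linarith
      · have : Ex p (fun ω => ind (c ≠ c' ∧ R ω j a (-c - c'))) = 0 := by
          rw [Ex_congr (g := fun _ => 0) (fun ω => ind_neg fun h => h3 h.1), Ex_const hp]
        rw [this]; linarith
      · nlinarith

end expectation

end

end Pool.Agent.MP_d802e4_co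

end

-- part MP_d802e4_co.Tree
section

/-!
Stars and caterpillars inside an acyclic vertex set, and the deterministic analysis of a path
that stays uncoloured.
-/

set_option autoImplicit false

namespace Pool.Agent.MP_d802e4_co

open Finset

variable {V : Type*} [Fintype V] [DecidableEq V]

open Classical in
/-- the neighbours of `v` -/
noncomputable def nb (G : SimpleGraph V) (v : V) : Finset V := univ.filter (G.Adj v)

/-- `v` with the branches behind the neighbours in `C` -/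
def St (G : SimpleGraph V) (S0 : Set V) (v : V) (C : Finset V) : Set V :=
  {z | z = v ∨ ∃ w ∈ C, z ∈ Br G S0 v w}

variable {G : SimpleGraph V} {S0 : Set V}

omit [DecidableEq V] in
lemma mem_nb {v w : V} : w ∈ nb G v ↔ G.Adj v w := by simp [nb]

omit [Fintype V] [DecidableEq V] in
lemma St_sub {v : V} {C : Finset V} (hv : v ∈ S0) (hC : ∀ w ∈ C, G.Adj v w ∧ w ∈ S0) :
    St G S0 v C ⊆ S0 := by
  rintro z (rfl | ⟨w, hw, hz⟩)
  · exact hv
  · exact Br_sub (hC w hw).2 hz

omit [Fintype V] [DecidableEq V] in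
lemma St_closed {v : V} {C : Finset V} {u z : V} (hu : u ∈ St G S0 v C) (huv : u ≠ v)
    (hz : z ∈ S0) (ha : G.Adj u z) : z ∈ St G S0 v C := by
  rcases hu with rfl | ⟨w, hw, hu⟩
  · exact absurd rfl huv
  · by_cases hzv : z = v
    · exact Or.inl hzv
    · exact Or.inr ⟨w, hw, Br_step hu ha hz hzv⟩

omit [Fintype V] [DecidableEq V] in
lemma isStar (hAC : AC G S0) {v : V} {C : Finset V} (hv : v ∈ S0)
    (hC : ∀ w ∈ C, G.Adj v w ∧ w ∈ S0) : IsStar G v C (Br G S0 v) (St G S0 v C) where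
  adj w hw := (hC w hw).1
  root w _ := root_mem_Br _ _ _
  mem _ := Iff.rfl
  vnot w hw h := Br_ne (hC w hw).1.ne' h rfl
  disj w hw w' hw' hne := hAC.disj hv (hC w hw).1 (hC w' hw').1 (hC w hw).2 (hC w' hw').2 hne
  closed w hw u hu z hz ha := by
    by_cases hzv : z = v
    · subst hzv
      exact Or.inr ⟨rfl, (hAC z hv w u (hC w hw).1 ha.symm (hC w hw).2 hu).symm⟩
    · exact Or.inl (Br_step hu ha (St_sub hv hC hz) hzv)

lemma Br_eq (hAC : AC G S0) {p q : V} (ha : G.Adj p q) (hq : q ∈ S0)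
    (hn : ∀ w, G.Adj q w → w ∈ S0) : Br G S0 p q = St G S0 q ((nb G q).erase p) := by
  ext z
  constructor
  · intro hz
    induction hz with
    | refl => exact Or.inl rfl
    | @tail b c _ hc ih =>
      by_cases hb : b = q
      · subst hb
        exact Or.inr ⟨c, mem_erase.2 ⟨hc.2.2, mem_nb.2 hc.1⟩, root_mem_Br _ _ _⟩
      · exact St_closed ih hb hc.2.1 hc.1
  · rintro (rfl | ⟨w, hw, hz⟩)
    · exact root_mem_Br _ _ _
    · obtain ⟨hwp, hw⟩ := mem_erase.1 hw
      have hw' := mem_nb.1 hw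
      have : p ∉ Br G S0 q w := fun h => hwp (hAC q hq w p hw' ha.symm (hn w hw') h)
      exact Br_trans (Br_step (root_mem_Br _ _ _) hw' (hn w hw') hwp) (Br_sub_Br this hz)

/-- the side neighbours of the `j`-th vertex of the path -/
noncomputable def side (G : SimpleGraph V) (f : ℕ → V) (j : ℕ) : Finset V :=
  ((nb G (f j)).erase (f (j - 1))).erase (f (j + 1))

/-- the star at the `j`-th vertex of the path -/
def Tj (G : SimpleGraph V) (S0 : Set V) (f : ℕ → V) (j : ℕ) : Set V := St G S0 (f j) (side G f j)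

/-- a path with all its side branches -/
structure Cat (G : SimpleGraph V) (S0 : Set V) (f : ℕ → V) (l : ℕ) : Prop where
  ac : AC G S0
  iw : IW G f (l + 1)
  mem : ∀ i, i ≤ l + 1 → f i ∈ S0
  full : ∀ j, 1 ≤ j → j ≤ l → ∀ w, G.Adj (f j) w → w ∈ S0

variable {f : ℕ → V} {l : ℕ}

lemma mem_side {j : ℕ} {w : V} :
    w ∈ side G f j ↔ w ≠ f (j + 1) ∧ w ≠ f (j - 1) ∧ G.Adj (f j) w := by
  simp [side, mem_nb]

lemma Cat.hC (h : Cat G S0 f l) {j : ℕ} (h1 : 1 ≤ j) (h2 : j ≤ l) :
    ∀ w ∈ side G f j, G.Adj (f j) w ∧ w ∈ S0 :=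
  fun w hw => ⟨(mem_side.1 hw).2.2, h.full j h1 h2 w (mem_side.1 hw).2.2⟩

lemma Cat.star (h : Cat G S0 f l) {j : ℕ} (h1 : 1 ≤ j) (h2 : j ≤ l) :
    IsStar G (f j) (side G f j) (Br G S0 (f j)) (Tj G S0 f j) :=
  isStar h.ac (h.mem j (by omega)) (h.hC h1 h2)

omit [Fintype V] [DecidableEq V] in
lemma Cat.fwd (h : Cat G S0 f l) {i j : ℕ} (hij : i < j) (hj : j ≤ l + 1) :
    f j ∈ Br G S0 (f i) (f (i + 1)) :=
  Br_of_walk h.iw.adj (i + 1) j hij hj fun a h1 h2 => ⟨h.mem a (by omega), fun hc => by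
    have := h.iw.inj _ _ (by omega) (by omega) hc; omega⟩

omit [Fintype V] [DecidableEq V] in
lemma Cat.bwd (h : Cat G S0 f l) {i j : ℕ} (hij : i < j) (hj : j ≤ l + 1) :
    f i ∈ Br G S0 (f j) (f (j - 1)) :=
  Br_symm (h.mem i (by omega)) (fun hc => by
    have := h.iw.inj _ _ (by omega) (by omega) hc; omega)
    (Br_of_walk h.iw.adj i (j - 1) (by omega) (by omega) fun a h1 h2 =>
      ⟨h.mem a (by omega), fun hc => by have := h.iw.inj _ _ (by omega) (by omega) hc; omega⟩)

lemma Cat.notin (h : Cat G S0 f l) {i j : ℕ} (h1 : 1 ≤ j) (h2 : j ≤ l) (hi : i ≤ l + 1) {w : V}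
    (hw : w ∈ side G f j) : f i ∉ Br G S0 (f j) w := by
  obtain ⟨n1, n2, ha⟩ := mem_side.1 hw
  have hwS := h.full j h1 h2 w ha
  intro hc
  rcases lt_trichotomy i j with hij | rfl | hij
  · have a2 : G.Adj (f j) (f (j - 1)) := by
      have := (h.iw.adj (j - 1) (by omega)).symm
      rwa [show j - 1 + 1 = j by omega] at this
    exact Set.disjoint_left.1 (h.ac.disj (h.mem j (by omega)) ha a2 hwS (h.mem _ (by omega)) n2) hc
      (h.bwd hij (by omega))
  · exact Br_ne ha.ne' hc rfl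
  · exact Set.disjoint_left.1 (h.ac.disj (h.mem j (by omega)) ha (h.iw.adj j (by omega)) hwS
      (h.mem _ (by omega)) n1) hc (h.fwd hij hi)

lemma Cat.disj (h : Cat G S0 f l) {i j : ℕ} (h1 : 1 ≤ i) (hij : i < j) (h2 : j ≤ l) :
    Disjoint (Tj G S0 f i) (Tj G S0 f j) := by
  have hsub : Tj G S0 f j ⊆ Br G S0 (f i) (f (i + 1)) := by
    rintro z (rfl | ⟨w, hw, hz⟩)
    · exact h.fwd hij (by omega)
    · have hn := h.notin (i := i) (by omega) h2 (by omega) hw
      have hw' := h.hC (by omega) h2 w hw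
      refine Br_trans (Br_step (h.fwd hij (by omega)) hw'.1 hw'.2 fun hc => hn ?_)
        (Br_sub_Br hn hz)
      rw [← hc]; exact root_mem_Br _ _ _
  refine Set.disjoint_left.2 fun z hz hz' => ?_
  have hz2 := hsub hz'
  rcases hz with rfl | ⟨w, hw, hz⟩
  · exact Br_ne (h.iw.adj i (by omega)).ne' hz2 rfl
  · have hw' := h.hC h1 (by omega) w hw
    exact Set.disjoint_left.1 (h.ac.disj (h.mem i (by omega)) hw'.1 (h.iw.adj i (by omega)) hw'.2
      (h.mem _ (by omega)) (mem_side.1 hw).1) hz hz2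

lemma Cat.emb (h : Cat G S0 f l) {S W : Set V} (hS0 : S ⊆ S0) (hf : ∀ i, i ≤ l + 1 → f i ∈ S)
    (hS : ∀ u ∈ S, u ≠ f 0 → ∀ z ∈ S0, G.Adj u z → z ∈ S) (hW : ∀ u ∈ W, u = f 0)
    {j : ℕ} (h1 : 1 ≤ j) (h2 : j ≤ l) : Emb G (f j) (Tj G S0 f j) S W := by
  have hj0 : f j ≠ f 0 := fun hc => by have := h.iw.inj _ _ (by omega) (by omega) hc; omega
  have hne : ∀ u ∈ Tj G S0 f j, u ≠ f 0 := by
    rintro u (rfl | ⟨w, hw, hu⟩)
    · exact hj0
    · exact fun hc => h.notin h1 h2 (Nat.zero_le _) hw (hc ▸ hu)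
  refine ⟨Or.inl rfl, ?_, fun u hu huv z hz ha => St_closed hu huv (hS0 hz) ha,
    fun u hu hw => hne u hu (hW u hw)⟩
  rintro z (rfl | ⟨w, hw, hz⟩)
  · exact hf j (by omega)
  · induction hz with
    | refl => exact hS _ (hf j (by omega)) hj0 _ (h.hC h1 h2 w hw).2 (h.hC h1 h2 w hw).1
    | @tail b c hb hc ih => exact hS b ih (hne b (Or.inr ⟨w, hw, hb⟩)) c hc.2.1 hc.1

lemma out_of_Tj {j : ℕ} {z : V} (ha : G.Adj (f j) z) (hz : z ∉ Tj G S0 f j) :
    z = f (j + 1) ∨ z = f (j - 1) := by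
  by_contra hc
  push Not at hc
  exact hz (Or.inr ⟨z, mem_side.2 ⟨hc.1, hc.2, ha⟩, root_mem_Br _ _ _⟩)

/-- position `j` has a long side chain before time `h` -/
def badj (G : SimpleGraph V) (K L : ℕ) (S0 : Set V) (f : ℕ → V) (ρ : V → ℕ) (χ : V → Co)
    (h j : ℕ) : Prop := ∃ n, n < h ∧ Long G K L (Tj G S0 f j) (f j) ρ χ n

/-- position `j` is quiet at the start of level `a` -/
def Qj (G : SimpleGraph V) (K N : ℕ) (S0 : Set V) (f : ℕ → V) (ρ : V → ℕ) (χ : V → Co)
    (h j a : ℕ) : Prop := Qt G K (f j) (side G f j) (Br G S0 (f j)) ρ χ (a * N) ∧ a * N ≤ h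

/-- position `j` sees `m` at the end of level `a` -/
def Szj (G : SimpleGraph V) (K N : ℕ) (S0 : Set V) (f : ℕ → V) (ρ : V → ℕ) (χ : V → Co)
    (j a : ℕ) (m : Co) : Prop := Sees G (col G K (Tj G S0 f j) {f j} ρ χ ((a + 1) * N)) (f j) m

theorem cat_star {K L N k : ℕ} {ρ : V → ℕ} {χ : V → Co} (hN : Nice G K ρ) (hK : 3 * L + 1 ≤ K)
    (hN0 : 0 < N) (h : Cat G S0 f l) {S W : Set V} (hS0 : S ⊆ S0)
    (hf : ∀ i, i ≤ l + 1 → f i ∈ S)
    (hS : ∀ u ∈ S, u ≠ f 0 → ∀ z ∈ S0, G.Adj u z → z ∈ S) (hW : ∀ u ∈ W, u = f 0)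
    {t hz : ℕ} (ht : t ≤ hz) (htk : t ≤ k * N)
    (hu : ∀ i, i ≤ l + 1 → Unc (col G K S W ρ χ t) (f i))
    (hQ : ∀ j, 1 ≤ j → j ≤ l → Qt G K (f j) (side G f j) (Br G S0 (f j)) ρ χ t →
      t < k * N ∧ ∃ c, Ch G S (col G K S W ρ χ t) f c (l + 1)) :
    ∀ lo r, 1 ≤ lo → lo + r ≤ l + 1 → r ≤ L →
      (∀ j, lo ≤ j → j < lo + r → ¬ badj G K L S0 f ρ χ hz j) →
      Prop_star k (Qj G K N S0 f ρ χ hz) (Szj G K N S0 f ρ χ) 0 lo (lo + r) := by
  intro lo r hlo hhi hr hb j hj1 hj2
  have hE := fun j h1 h2 => h.emb hS0 hf hS hW (j := j) h1 h2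
  have hout : ∀ j, 1 ≤ j → j ≤ l → ∀ z ∈ S, G.Adj (f j) z → z ∉ Tj G S0 f j →
      Unc (col G K S W ρ χ t) z := by
    intro j h1 h2 z _ ha hz
    rcases out_of_Tj ha hz with rfl | rfl
    · exact hu _ (by omega)
    · exact hu _ (by omega)
  have hag := fun j h1 h2 => restrict (hE j h1 h2) (hu j (by omega)) (hout j h1 h2)
  have hsz : ∀ n, n ≤ t → ∀ i m, lo ≤ i → i < lo + r → Sees G (col G K S W ρ χ n) (f i) m →
      Szj G K N S0 f ρ χ i (n / N) m := by
    intro n hn i m h1 h2 hs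
    refine sees_mono ?_ (((hag i (by omega) (by omega) n hn).sees _ (Or.inl rfl) m).1 hs)
    have := Nat.lt_div_mul_add (a := n) hN0
    rw [add_mul, one_mul]; omega
  have fin : ∀ n, n ≤ t → n < k * N → Qt G K (f j) (side G f j) (Br G S0 (f j)) ρ χ n →
      (Thread (Szj G K N S0 f ρ χ) (n / N) (j + 1) (lo + r) ∨
        Thread (Szj G K N S0 f ρ χ) (n / N) lo j) →
      ∃ a, 0 ≤ a ∧ a < k ∧ (∀ a', a' ≤ a → Qj G K N S0 f ρ χ hz j a') ∧
        (Thread (Szj G K N S0 f ρ χ) a (j + 1) (lo + r) ∨ Thread (Szj G K N S0 f ρ χ) a lo j) := by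
    intro n hn hnk hq hT
    refine ⟨n / N, Nat.zero_le _, (Nat.div_lt_iff_lt_mul hN0).2 hnk, fun a' ha' => ?_, hT⟩
    have : a' * N ≤ n := (Nat.mul_le_mul_right N ha').trans (Nat.div_mul_le_self n N)
    exact ⟨hq.mono this, by omega⟩
  by_cases hq : Qt G K (f j) (side G f j) (Br G S0 (f j)) ρ χ t
  · obtain ⟨h1, c, hc⟩ := hQ j (by omega) (by omega) hq
    refine fin t le_rfl h1 hq (Or.inl ⟨fun i => c (i - 1), fun i h2 h3 => ?_⟩)
    have := hc.step (i - 1) (by omega)
    rw [show i - 1 + 1 = i by omega] at this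
    exact ⟨this.1, hsz t le_rfl i _ (by omega) h3 this.2⟩
  obtain ⟨n, hn, hqn, hL | ⟨q, c, e, hc, h0, he⟩⟩ := attempt hN hK (h.star (by omega) (by omega))
    (hE j (by omega) (by omega)) (hu j (by omega)) (hout j (by omega) (by omega)) hq
  · exact absurd ⟨n, by omega, hL⟩ (hb j hj1 hj2)
  refine fin n hn.le (by omega) hqn ?_
  have nxt : ∀ i g, lo ≤ g → g < lo + r → i < L → i ≤ e → q i = f g →
      i < e ∧ (q (i + 1) = f (g + 1) ∨ q (i + 1) = f (g - 1)) := by
    intro i g g1 g2 hi hie hqi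
    have h1 : i < e := by
      by_contra hc'
      have : i = e := by omega
      subst this
      rcases he with he | he
      · omega
      · have := h.iw.inj g 0 (by omega) (by omega) (by rw [← hqi, hW _ he]); omega
    refine ⟨h1, out_of_Tj (S0 := S0) (hqi ▸ hc.iw.adj i h1) fun hT => hb g g1 g2 ⟨n, by omega, ?_⟩⟩
    exact side_entry (hE g (by omega) (by omega)) (hag g (by omega) (by omega) n hn.le) hc he hi h1
      hqi hT
  have run : ∀ (g : ℕ → ℕ) (u : ℕ), g 0 = j → q 1 = f (g 1) → u < L →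
      (∀ i, i ≤ u → lo ≤ g i ∧ g i < lo + r) →
      (∀ i, i + 1 < u → (g (i + 2) = g (i + 1) + 1 ∧ g i = g (i + 1) - 1) ∨
        (g (i + 2) = g (i + 1) - 1 ∧ g i = g (i + 1) + 1)) →
      ∀ i, i ≤ u → i ≤ e ∧ ∀ i', i' ≤ i → q i' = f (g i') := by
    intro g u g0 g1 hu hg hstep i
    induction i with
    | zero => intro _; exact ⟨Nat.zero_le _, fun i' hi' => by rw [show i' = 0 by omega, g0, h0]⟩
    | succ i ih =>
      intro hi
      obtain ⟨h1, h2⟩ := ih (by omega)
      obtain ⟨h3, h4⟩ := nxt i (g i) (hg i (by omega)).1 (hg i (by omega)).2 (by omega) h1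
        (h2 i le_rfl)
      refine ⟨h3, fun i' hi' => ?_⟩
      by_cases h5 : i' ≤ i
      · exact h2 i' h5
      rw [show i' = i + 1 by omega]
      cases i with
      | zero => exact g1
      | succ i =>
        have h6 := h2 i (by omega)
        have h7 : q (i + 1 + 1) ≠ q i := fun hc' => by
          have := hc.iw.inj _ _ (by omega) (by omega) hc'; omega
        rcases hstep i (by omega) with ⟨s1, s2⟩ | ⟨s1, s2⟩
        · rw [s1]; exact h4.resolve_right fun h8 => h7 (by rw [h8, h6, s2])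
        · rw [s1]; exact h4.resolve_left fun h8 => h7 (by rw [h8, h6, s2])
  obtain ⟨-, h1 | h1⟩ := nxt 0 j hj1 hj2 (by omega) (Nat.zero_le _) h0
  · left
    have := run (fun i => j + i) (lo + r - 1 - j) rfl h1 (by omega) (fun i hi => by omega)
      (fun i hi => by omega)
    refine ⟨fun i => c (i - j - 1), fun i h2 h3 => ?_⟩
    obtain ⟨h4, h5⟩ := this (i - j) (by omega)
    have s := hc.step (i - j - 1) (by omega)
    rw [show i - j - 1 + 1 = i - j by omega, h5 _ le_rfl] at s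
    simp only [show j + (i - j) = i by omega] at s
    simp only [show i + 1 - j - 1 = i - j by omega]
    exact ⟨s.1, hsz n hn.le i _ (by omega) h3 s.2⟩
  · right
    have := run (fun i => j - i) (j - lo) rfl h1 (by omega) (fun i hi => by omega)
      (fun i hi => by omega)
    refine ⟨fun i => c (j - i), fun i h2 h3 => ?_⟩
    obtain ⟨h4, h5⟩ := this (j - i) (by omega)
    have s := hc.step (j - i - 1) (by omega)
    rw [show j - i - 1 + 1 = j - i by omega, h5 _ le_rfl] at s
    simp only [show j - (j - i) = i by omega] at s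
    simp only [show j - (i + 1) = j - i - 1 by omega]
    refine ⟨s.1.symm, hsz n hn.le i _ h2 (by omega) ?_⟩
    rw [show -c (j - i) - c (j - i - 1) = -c (j - i - 1) - c (j - i) by ring]
    exact s.2

end Pool.Agent.MP_d802e4_co

end

-- part MP_d802e4_co.Count
section

/-!
Counting balls and paths in a 4-regular graph; a schedule; the final extension of the colouring.
-/

set_option autoImplicit false

namespace Pool.Agent.MP_d802e4_co

open Finset

variable {V : Type*} [Fintype V] [DecidableEq V] {G : SimpleGraph V}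

open Classical in
/-- the ball of radius `r` -/
noncomputable def ball (G : SimpleGraph V) (r : ℕ) (u : V) : Finset V := univ.filter (Near G r u)

omit [DecidableEq V] in
lemma mem_ball {r : ℕ} {u z : V} : z ∈ ball G r u ↔ Near G r u z := by simp [ball]

lemma card_ball (h4 : ∀ v, (nb G v).card = 4) (r : ℕ) (u : V) : (ball G r u).card ≤ 5 ^ r := by
  induction r with
  | zero =>
    rw [pow_zero]
    refine le_trans (card_le_card (t := {u}) fun z hz => ?_) (by simp)
    have : u = z := mem_ball.1 hz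
    simp [this]
  | succ r ih =>
    have h1 : ball G (r + 1) u ⊆ (ball G r u).biUnion (fun z => insert z (nb G z)) := by
      intro y hy
      rcases mem_ball.1 hy with h | ⟨z, h, ha⟩
      · exact mem_biUnion.2 ⟨y, mem_ball.2 h, mem_insert_self _ _⟩
      · exact mem_biUnion.2 ⟨z, mem_ball.2 h, mem_insert_of_mem (mem_nb.2 ha)⟩
    refine (card_le_card h1).trans ((card_biUnion_le_card_mul _ _ 5 fun z _ => ?_).trans ?_)
    · exact (card_insert_le _ _).trans (by rw [h4])
    · rw [pow_succ]; exact Nat.mul_le_mul_right _ ih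

open Classical in
/-- non-backtracking walks of length `d` from `u`, as eventually constant sequences -/
noncomputable def FP (G : SimpleGraph V) (u : V) : ℕ → Finset (ℕ → V)
  | 0 => {fun _ => u}
  | d + 1 => (FP G u d).biUnion fun f => ((nb G (f d)).erase (f (d - 1))).image (snoc f d)

lemma FP_spec {u : V} : ∀ d, ∀ g ∈ FP G u d, (∀ j, d ≤ j → g j = g d) ∧
    (1 ≤ d → G.Adj (g d) (g (d - 1))) := by
  intro d
  induction d with
  | zero =>
    intro g hg
    simp only [FP, mem_singleton] at hg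
    subst hg
    exact ⟨fun _ _ => rfl, fun h => by omega⟩
  | succ d ih =>
    intro g hg
    simp only [FP, mem_biUnion, mem_image] at hg
    obtain ⟨f, -, w, hw, rfl⟩ := hg
    refine ⟨fun j hj => ?_, fun _ => ?_⟩
    · rw [snoc_last]; simp only [snoc]; rw [if_neg (by omega)]
    · rw [snoc_last, Nat.add_sub_cancel, snoc_le _ _ le_rfl]
      exact (mem_nb.1 (mem_erase.1 hw).2).symm

lemma card_FP (h4 : ∀ v, (nb G v).card = 4) (u : V) : ∀ d, (FP G u d).card ≤ 2 * 3 ^ d := by
  classical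
  have key : ∀ d, (FP G u (d + 1)).card ≤ 4 * 3 ^ d := by
    intro d
    induction d with
    | zero =>
      rw [FP]
      refine (card_biUnion_le_card_mul _ _ 4 fun f _ => ?_).trans (by simp [FP])
      exact card_image_le.trans ((card_erase_le).trans (h4 _).le)
    | succ d ih =>
      rw [FP]
      refine (card_biUnion_le_card_mul _ _ 3 fun f hf => ?_).trans ?_
      · refine card_image_le.trans ?_
        rw [card_erase_of_mem (mem_nb.2 ((FP_spec _ f hf).2 (by omega))), h4]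
      · rw [pow_succ]; omega
  intro d
  cases d with
  | zero => simp [FP]
  | succ d => have := key d; rw [pow_succ]; omega

lemma exists_FP {u : V} : ∀ (d : ℕ) (f : ℕ → V), IW G f d → f 0 = u →
    ∃ g ∈ FP G u d, ∀ i, i ≤ d → f i = g i := by
  intro d
  induction d with
  | zero =>
    intro f _ h0
    exact ⟨fun _ => u, by simp [FP], fun i hi => by rw [show i = 0 by omega, h0]⟩
  | succ d ih =>
    intro f hf h0
    obtain ⟨g, hg, hfg⟩ := ih f (hf.take (Nat.le_succ d)) h0
    refine ⟨snoc g d (f (d + 1)), ?_, fun i hi => ?_⟩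
    · simp only [FP, mem_biUnion, mem_image]
      refine ⟨g, hg, f (d + 1), mem_erase.2 ⟨?_, mem_nb.2 ?_⟩, rfl⟩
      · rw [← hfg _ (by omega)]
        intro hc
        have := hf.inj _ _ (by omega) (by omega) hc
        omega
      · rw [← hfg _ le_rfl]; exact hf.adj d (by omega)
    · by_cases h : i ≤ d
      · rw [snoc_le _ _ h]; exact hfg i h
      · rw [show i = d + 1 by omega, snoc_last]

open Classical in
/-- all paths of length `d` -/
noncomputable def Paths (G : SimpleGraph V) (d : ℕ) : Finset (ℕ → V) :=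
  (univ.biUnion fun u => FP G u d).filter fun f => IW G f d

lemma exists_Paths {d : ℕ} {f : ℕ → V} (h : IW G f d) :
    ∃ g ∈ Paths G d, ∀ i, i ≤ d → f i = g i := by
  obtain ⟨g, hg, hfg⟩ := exists_FP d f h rfl
  refine ⟨g, ?_, hfg⟩
  simp only [Paths, mem_filter, mem_biUnion]
  exact ⟨⟨f 0, mem_univ _, hg⟩, h.congr hfg⟩

lemma Paths_iw {d : ℕ} {f : ℕ → V} (h : f ∈ Paths G d) : IW G f d := by
  simp only [Paths, mem_filter] at h
  exact h.2

lemma card_through (h4 : ∀ v, (nb G v).card = 4) {d i : ℕ} (hi : i ≤ d) (u : V) :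
    ((Paths G d).filter fun f => f i = u).card ≤ 4 * 3 ^ d := by
  classical
  let join : (ℕ → V) × (ℕ → V) → ℕ → V :=
    fun x j => if j ≤ i then x.1 (i - j) else x.2 (min j d - i)
  have h1 : ((Paths G d).filter fun f => f i = u) ⊆
      (FP G u i ×ˢ FP G u (d - i)).image join := by
    intro f hf
    obtain ⟨hf, hu⟩ := mem_filter.1 hf
    have hiw := Paths_iw hf
    simp only [Paths, mem_filter, mem_biUnion] at hf
    obtain ⟨⟨u', -, hu'⟩, -⟩ := hf
    have hn := (FP_spec d f hu').1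
    obtain ⟨g1, hg1, e1⟩ := exists_FP (u := u) i _ (hiw.rev i i hi le_rfl) hu
    obtain ⟨g2, hg2, e2⟩ := exists_FP (u := u) (d - i) _ (hiw.drop i (d - i) (by omega)) hu
    refine mem_image.2 ⟨(g1, g2), mem_product.2 ⟨hg1, hg2⟩, ?_⟩
    funext j
    simp only [join]
    split_ifs with h
    · rw [← e1 _ (by omega), show i - (i - j) = j by omega]
    · rw [← e2 _ (by omega)]
      by_cases h2 : j ≤ d
      · rw [show i + (min j d - i) = j by omega]
      · rw [show i + (min j d - i) = d by omega, hn j (by omega)]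
  refine (card_le_card h1).trans (card_image_le.trans ?_)
  rw [card_product]
  refine (Nat.mul_le_mul (card_FP h4 u i) (card_FP h4 u (d - i))).trans (le_of_eq ?_)
  rw [show 3 ^ d = 3 ^ i * 3 ^ (d - i) by rw [← pow_add]; congr 1; omega]
  ring

/-- the vertices within distance `r` of the path -/
noncomputable def hull (G : SimpleGraph V) (r d : ℕ) (f : ℕ → V) : Finset V :=
  (range (d + 1)).biUnion fun i => ball G r (f i)

lemma mem_hull {r d : ℕ} {f : ℕ → V} {z : V} :
    z ∈ hull G r d f ↔ ∃ i, i ≤ d ∧ Near G r (f i) z := by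
  simp [hull, mem_ball]

lemma card_hull (h4 : ∀ v, (nb G v).card = 4) (r d : ℕ) (f : ℕ → V) :
    (hull G r d f).card ≤ (d + 1) * 5 ^ r := by
  refine (card_biUnion_le_card_mul _ _ (5 ^ r) fun i _ => card_ball h4 _ _).trans ?_
  rw [card_range]

open Classical in
lemma card_nbrs (h4 : ∀ v, (nb G v).card = 4) (r d : ℕ) (f : ℕ → V) :
    ((Paths G d).filter fun g => ¬ Disjoint (hull G r d f : Set V) (hull G r d g : Set V)).card ≤
      (d + 1) * 5 ^ (2 * r) * ((d + 1) * (4 * 3 ^ d)) := by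
  have h1 : ((Paths G d).filter fun g => ¬ Disjoint (hull G r d f : Set V) (hull G r d g : Set V)) ⊆
      (hull G (2 * r) d f).biUnion fun u => (range (d + 1)).biUnion fun i =>
        (Paths G d).filter fun g => g i = u := by
    intro g hg
    obtain ⟨hg, hd⟩ := mem_filter.1 hg
    obtain ⟨z, h1, h2⟩ := Set.not_disjoint_iff.1 hd
    obtain ⟨i, hi, n1⟩ := mem_hull.1 h1
    obtain ⟨j, hj, n2⟩ := mem_hull.1 h2
    refine mem_biUnion.2 ⟨g j, mem_hull.2 ⟨i, hi, (n1.trans n2.symm).mono (by omega)⟩,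
      mem_biUnion.2 ⟨j, mem_range.2 (by omega), mem_filter.2 ⟨hg, rfl⟩⟩⟩
  refine (card_le_card h1).trans ((card_biUnion_le_card_mul _ _ ((d + 1) * (4 * 3 ^ d))
    fun u _ => ?_).trans (Nat.mul_le_mul_right _ (card_hull h4 _ _ _)))
  refine (card_biUnion_le_card_mul _ _ (4 * 3 ^ d) fun i hi => ?_).trans (by rw [card_range])
  convert card_through h4 (i := i) (d := d) (by have := mem_range.1 hi; omega) u

/-- a schedule: vertices in one class are far apart -/
lemma exists_schedule (h4 : ∀ v, (nb G v).card = 4) (r : ℕ) :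
    ∃ cls : V → ℕ, (∀ v, cls v < 5 ^ r + 1) ∧
      ∀ x x', cls x = cls x' → Near G r x x' → x = x' := by
  have key : ∀ s : Finset V, ∃ cls : V → ℕ, (∀ v, cls v < 5 ^ r + 1) ∧
      ∀ x ∈ s, ∀ x' ∈ s, cls x = cls x' → Near G r x x' → x = x' := by
    intro s
    induction s using Finset.induction_on with
    | empty => exact ⟨fun _ => 0, fun _ => by positivity, by simp⟩
    | insert a s ha ih =>
      obtain ⟨cls, h1, h2⟩ := ih
      have hlt : ((ball G r a).image cls).card < (range (5 ^ r + 1)).card := by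
        rw [card_range]
        exact Nat.lt_succ_of_le (card_image_le.trans (card_ball h4 r a))
      obtain ⟨c, hc, hc'⟩ := exists_mem_notMem_of_card_lt_card hlt
      refine ⟨Function.update cls a c, fun v => ?_, ?_⟩
      · by_cases hv : v = a
        · subst hv; simpa using mem_range.1 hc
        · simpa [hv] using h1 v
      · intro x hx x' hx' he hn
        by_cases e1 : x = a <;> by_cases e2 : x' = a
        · rw [e1, e2]
        · subst e1
          simp only [Function.update_self, Function.update_of_ne e2] at he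
          exact absurd (mem_image.2 ⟨x', mem_ball.2 hn, he.symm⟩) hc'
        · subst e2
          simp only [Function.update_self, Function.update_of_ne e1] at he
          exact absurd (mem_image.2 ⟨x, mem_ball.2 hn.symm, he⟩) hc'
        · simp only [Function.update_of_ne e1, Function.update_of_ne e2] at he
          exact h2 x (by simpa [e1] using hx) x' (by simpa [e2] using hx') he hn
  obtain ⟨cls, h1, h2⟩ := key univ
  exact ⟨cls, h1, fun x x' => h2 x (mem_univ _) x' (mem_univ _)⟩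

omit [Fintype V] in
lemma exists_leaf {R : ℕ} (hU : UP G (R + 1)) (U : Finset V) (hne : U.Nonempty)
    (hno : ∀ f, IW G f R → ∃ i, i ≤ R ∧ f i ∉ U) :
    ∃ z ∈ U, ∀ y ∈ U, ∀ y' ∈ U, G.Adj z y → G.Adj z y' → y = y' := by
  by_contra hc
  push Not at hc
  have key : ∀ d, d ≤ R → ∃ f, IW G f d ∧ ∀ i, i ≤ d → f i ∈ U := by
    intro d
    induction d with
    | zero =>
      intro _
      obtain ⟨z, hz⟩ := hne
      exact ⟨fun _ => z, ⟨fun i j hi hj _ => by omega, fun i hi => by omega⟩, fun _ _ => hz⟩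
    | succ d ih =>
      intro hd
      obtain ⟨f, hf, hU'⟩ := ih (by omega)
      obtain ⟨y, hy, y', hy', a1, a2, hne⟩ := hc (f d) (hU' d le_rfl)
      have ext : ∀ y ∈ U, G.Adj (f d) y → y ≠ f (d - 1) →
          ∃ f, IW G f (d + 1) ∧ ∀ i, i ≤ d + 1 → f i ∈ U := by
        intro y hy ha hyp
        refine ⟨snoc f d y, hf.snoc ha fun i hi hiy => ?_, fun i hi => ?_⟩
        · have e1 : IW G (snoc (fun _ => f d) 0 y) 1 :=
            IW.snoc (p := fun _ => f d) ⟨fun i j hi hj _ => by omega, fun i hi => by omega⟩ ha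
              fun _ _ => ha.ne
          have := (hU 1 (d - i) _ _ e1 (hf.rev d (d - i) le_rfl (by omega)) (by omega) (by omega)
            (by rw [snoc_le _ _ le_rfl]; rfl)
            (by rw [snoc_last, show d - (d - i) = i by omega, hiy])).1
          exact hyp (by rw [← hiy]; congr 1; omega)
        · by_cases h : i ≤ d
          · rw [snoc_le _ _ h]; exact hU' i h
          · rw [show i = d + 1 by omega, snoc_last]; exact hy
      by_cases h : y = f (d - 1)
      · exact ext y' hy' a2 fun h' => hne (h.trans h'.symm)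
      · exact ext y hy a1 h
  obtain ⟨f, hf, hU'⟩ := key R le_rfl
  obtain ⟨i, hi, h⟩ := hno f hf
  exact h (hU' i hi)

lemma co_free : ∀ a b : Co, ∃ c : Co, c ≠ a ∧ c ≠ b := by decide

lemma colorable_of_state {R : ℕ} (hU : UP G (R + 1)) {σ : V → Co → Prop}
    (hI : Inv G Set.univ σ) (hno : ∀ f, IW G f R → ∃ i, i ≤ R ∧ ¬ Unc σ (f i)) :
    G.Colorable 3 := by
  classical
  have key : ∀ n, ∀ U : Finset V, U.card = n → (∀ u ∈ U, Unc σ u) → ∃ φ : V → Co,
      (∀ u c, σ u c → φ u = c) ∧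
      ∀ u z, G.Adj u z → (u ∈ U ∨ ¬ Unc σ u) → (z ∈ U ∨ ¬ Unc σ z) → φ u ≠ φ z := by
    intro n
    induction n with
    | zero =>
      intro U hU0 _
      rw [card_eq_zero] at hU0
      subst hU0
      refine ⟨fun u => if h : ∃ c, σ u c then h.choose else 0, fun u c h => ?_, ?_⟩
      · have h' : ∃ c, σ u c := ⟨c, h⟩
        simp only [dif_pos h']
        exact hI.uniq u _ _ h'.choose_spec h
      · intro u z ha hu hz
        have hu' : ∃ c, σ u c := by simpa [Unc] using hu
        have hz' : ∃ c, σ z c := by simpa [Unc] using hz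
        simp only [dif_pos hu', dif_pos hz']
        intro he
        exact hI.proper u z _ ha hu'.choose_spec (he ▸ hz'.choose_spec)
    | succ n ih =>
      intro U hUn hUu
      obtain ⟨z, hz, hleaf⟩ := exists_leaf hU U (card_pos.1 (by omega)) fun f hf => by
        obtain ⟨i, hi, h⟩ := hno f hf
        exact ⟨i, hi, fun h' => h (hUu _ h')⟩
      obtain ⟨φ, h1, h2⟩ := ih (U.erase z) (by rw [card_erase_of_mem hz]; omega)
        fun u hu => hUu u (mem_of_mem_erase hu)
      obtain ⟨a, ha⟩ : ∃ a, ∀ y ∈ U, G.Adj z y → φ y = a := by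
        by_cases h : ∃ y ∈ U, G.Adj z y
        · obtain ⟨y, hy, hzy⟩ := h
          exact ⟨φ y, fun y' hy' h' => by rw [hleaf y hy y' hy' hzy h']⟩
        · exact ⟨0, fun y hy h' => absurd ⟨y, hy, h'⟩ h⟩
      obtain ⟨b, hb⟩ : ∃ b, ∀ m, Sees G σ z m → m = b := by
        by_cases h : ∃ m, Sees G σ z m
        · obtain ⟨m, hm⟩ := h
          exact ⟨m, fun m' h' => hI.one z trivial (hUu z hz) _ _ h' hm⟩
        · exact ⟨0, fun m h' => absurd ⟨m, h'⟩ h⟩
      obtain ⟨c, hca, hcb⟩ := co_free a b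
      have hzc : ∀ y, G.Adj z y → (y ∈ U ∨ ¬ Unc σ y) → c ≠ φ y := by
        rintro y hy (h | h)
        · rw [ha y h hy]; exact hca
        · obtain ⟨m, hm⟩ : ∃ m, σ y m := by simpa [Unc] using h
          rw [h1 y m hm, hb m ⟨y, hy, hm⟩]; exact hcb
      refine ⟨Function.update φ z c, fun u c' h => ?_, fun u y hadj hu hy => ?_⟩
      · have : u ≠ z := fun e => hUu z hz c' (e ▸ h)
        rw [Function.update_of_ne this]; exact h1 u c' h
      · by_cases e1 : u = z
        · subst e1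
          rw [Function.update_self, Function.update_of_ne hadj.ne']
          exact hzc y hadj hy
        · by_cases e2 : y = z
          · subst e2
            rw [Function.update_self, Function.update_of_ne e1]
            exact (hzc u hadj.symm hu).symm
          · rw [Function.update_of_ne e1, Function.update_of_ne e2]
            exact h2 u y hadj (hu.imp (fun h => mem_erase.2 ⟨e1, h⟩) id)
              (hy.imp (fun h => mem_erase.2 ⟨e2, h⟩) id)
  obtain ⟨φ, -, h2⟩ := key _ (univ.filter (Unc σ)) rfl fun u hu => (mem_filter.1 hu).2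
  have all : ∀ u, u ∈ univ.filter (Unc σ) ∨ ¬ Unc σ u := fun u => by
    by_cases h : Unc σ u <;> simp [h]
  have := (SimpleGraph.Coloring.mk (G := G) φ fun {u z} h => h2 u z h (all u) (all z)).colorable
  simpa using this

end Pool.Agent.MP_d802e4_co

end

-- part MP_d802e4_co.Num
section

/-!
The real inequalities behind the subcriticality of the process.
-/

set_option autoImplicit false

namespace Pool.Agent.MP_d802e4_co

noncomputable section

/-- probability that three independent children show at most one colour -/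
def G3 (x y z : ℝ) : ℝ :=
  3 * ((x + (1 - x) / 3) * ((y + (1 - y) / 3) * (z + (1 - z) / 3))) - 2 * (x * (y * z))

def gg (x : ℝ) : ℝ := (1 + 6 * x + 12 * x ^ 2 - 10 * x ^ 3) / 9

lemma G3_diag (x : ℝ) : G3 x x x = gg x := by unfold G3 gg; ring

lemma G3_mono1 {x x' y z : ℝ} (h : x ≤ x') (y0 : 0 ≤ y) (y1 : y ≤ 1) (z0 : 0 ≤ z) (z1 : z ≤ 1) :
    G3 x y z ≤ G3 x' y z := by
  have h1 : y * z ≤ (y + (1 - y) / 3) * (z + (1 - z) / 3) :=
    mul_le_mul (by linarith) (by linarith) z0 (by linarith)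
  have : G3 x' y z - G3 x y z =
      2 * (x' - x) * ((y + (1 - y) / 3) * (z + (1 - z) / 3) - y * z) := by unfold G3; ring
  nlinarith [mul_nonneg (sub_nonneg.2 h) (sub_nonneg.2 h1)]

lemma G3_rot (x y z : ℝ) : G3 x y z = G3 y z x := by unfold G3; ring

lemma G3_mono {x y z x' y' z' : ℝ} (hx : x ≤ x') (hy : y ≤ y') (hz : z ≤ z') (x0 : 0 ≤ x)
    (y0 : 0 ≤ y) (z0 : 0 ≤ z) (x1 : x' ≤ 1) (y1 : y' ≤ 1) (z1 : z' ≤ 1) :
    G3 x y z ≤ G3 x' y' z' := by
  calc G3 x y z ≤ G3 x' y z := G3_mono1 hx y0 (by linarith) z0 (by linarith)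
    _ = G3 y z x' := G3_rot _ _ _
    _ ≤ G3 y' z x' := G3_mono1 hy z0 (by linarith) (by linarith) x1
    _ = G3 z x' y' := G3_rot _ _ _
    _ ≤ G3 z' x' y' := G3_mono1 hz (by linarith) x1 (by linarith) y1
    _ = G3 x' y' z' := G3_rot _ _ _

lemma gg_pos {x : ℝ} (x0 : 0 ≤ x) (x1 : x ≤ 1) : 0 < gg x := by
  unfold gg
  have : 0 ≤ x ^ 2 * (1 - x) := mul_nonneg (sq_nonneg _) (by linarith)
  nlinarith [sq_nonneg x]

lemma gg_le_one {x : ℝ} (x0 : 0 ≤ x) : gg x ≤ 1 := by
  unfold gg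
  nlinarith [mul_nonneg (sq_nonneg (x - 1)) (show 0 ≤ 10 * x + 8 by linarith)]

lemma cross {x y : ℝ} (y0 : 0 ≤ y) (h : y ≤ x) : (x - y) / 25 ≤ x * gg y - y * gg x := by
  have x0 : 0 ≤ x := y0.trans h
  have hP : 9 / 25 ≤ 1 - 12 * (x * y) + 10 * (x * y) * (x + y) := by
    have hw : 0 ≤ x * y := mul_nonneg x0 y0
    by_cases ht : 6 / 5 ≤ x + y
    · nlinarith [mul_nonneg hw (sub_nonneg.2 ht)]
    · push Not at ht
      have h1 : x * y ≤ (x + y) ^ 2 / 4 := by nlinarith [sq_nonneg (x - y)]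
      have h2 : 0 ≤ (x + y - 4 / 5) ^ 2 * (x + y + 2 / 5) :=
        mul_nonneg (sq_nonneg _) (by linarith)
      nlinarith [mul_nonneg (sub_nonneg.2 h1) (show 0 ≤ 12 - 10 * (x + y) by linarith)]
  have : x * gg y - y * gg x = (x - y) * (1 - 12 * (x * y) + 10 * (x * y) * (x + y)) / 9 := by
    unfold gg; ring
  rw [this]
  nlinarith [mul_nonneg (sub_nonneg.2 h) (sub_nonneg.2 hP)]

/-- target values of the probability of being uncoloured -/
def xa (a : ℕ) : ℝ := 1 - a / 200

/-- probability that the clock has not rung before level `a` -/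
def sa (a : ℕ) : ℝ := xa a / gg (xa a)

lemma xa_nonneg {a : ℕ} (h : a ≤ 200) : 0 ≤ xa a := by
  unfold xa
  have : (a : ℝ) ≤ 200 := by exact_mod_cast h
  linarith

lemma xa_le_one (a : ℕ) : xa a ≤ 1 := by
  unfold xa
  have : (0 : ℝ) ≤ a := Nat.cast_nonneg a
  linarith

lemma xa_succ (a : ℕ) : xa (a + 1) = xa a - 1 / 200 := by unfold xa; push_cast; ring

lemma sa_zero : sa 0 = 1 := by unfold sa xa gg; norm_num

lemma sa_end : sa 200 = 0 := by unfold sa xa; norm_num

lemma sa_nonneg {a : ℕ} (h : a ≤ 200) : 0 ≤ sa a :=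
  div_nonneg (xa_nonneg h) (gg_pos (xa_nonneg h) (xa_le_one a)).le

lemma sa_anti {a : ℕ} (h : a < 200) : sa (a + 1) ≤ sa a := by
  unfold sa
  have h1 := xa_nonneg (show a + 1 ≤ 200 from h)
  have h2 : xa (a + 1) ≤ xa a := by rw [xa_succ]; linarith
  rw [div_le_div_iff₀ (gg_pos h1 (xa_le_one _)) (gg_pos (xa_nonneg h.le) (xa_le_one _))]
  linarith [cross h1 h2]

lemma sa_le_one {a : ℕ} (h : a ≤ 200) : sa a ≤ 1 := by
  unfold sa
  rw [div_le_one (gg_pos (xa_nonneg h) (xa_le_one _))]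
  have := cross (xa_nonneg h) (xa_le_one a)
  have h1 : gg 1 = 1 := by unfold gg; norm_num
  rw [h1] at this
  linarith [xa_le_one a]

lemma sa_upper {a : ℕ} (ha : a ≤ 200) {h : ℝ} (h1 : xa a + 1 / 200 ≤ h) :
    sa a * gg h ≤ h - 2 / 10000 := by
  have g0 := gg_pos (xa_nonneg ha) (xa_le_one a)
  have g1 := gg_le_one (xa_nonneg ha)
  have := cross (xa_nonneg ha) (show xa a ≤ h by linarith)
  unfold sa
  rw [div_mul_eq_mul_div, div_le_iff₀ g0]
  nlinarith

lemma sa_lower {a : ℕ} (ha : a ≤ 200) {l : ℝ} (l0 : 0 ≤ l) (h1 : l ≤ xa a - 1 / 200) :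
    l + 2 / 10000 ≤ sa a * gg l := by
  have g0 := gg_pos (xa_nonneg ha) (xa_le_one a)
  have g1 := gg_le_one (xa_nonneg ha)
  have := cross l0 (show l ≤ xa a by linarith)
  unfold sa
  rw [div_mul_eq_mul_div, le_div_iff₀ g0]
  nlinarith

lemma reg_num {a : ℕ} (ha : a < 200) {x y x' y' : ℝ} (_x0 : 0 ≤ x) (_x1 : x ≤ 1) (_y0 : 0 ≤ y)
    (y1 : y ≤ 1) (hx : x ≤ xa a + 1 / 200) (hy : y ≤ xa a + 1 / 200) (x0' : 0 ≤ x') (y0' : 0 ≤ y')
    (hx' : xa (a + 1) - 1 / 200 ≤ x') (hy' : xa (a + 1) - 1 / 200 ≤ y') :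
    sa a * (3 * ((x + (1 - x) / 3) * (y + (1 - y) / 3)) - 2 * (x * y) - x' * y') ≤ 492 / 1000 := by
  have u0 := xa_nonneg ha.le
  have u1 := xa_le_one a
  rw [xa_succ] at hx' hy'
  set u := xa a with hu
  have h1 : 3 * ((x + (1 - x) / 3) * (y + (1 - y) / 3)) - 2 * (x * y) ≤
      1 / 3 + 4 / 3 * u - 2 / 3 * u ^ 2 + 4 / 600 := by
    nlinarith [mul_nonneg (sub_nonneg.2 hx) (sub_nonneg.2 y1),
      mul_nonneg (sub_nonneg.2 hy) (sub_nonneg.2 u1)]
  have h2 : u ^ 2 - 4 / 200 ≤ x' * y' := by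
    by_cases hl : 0 ≤ u - 1 / 200 - 1 / 200
    · nlinarith [mul_le_mul hx' hy' hl x0']
    · nlinarith [mul_nonneg x0' y0']
  have h3 : sa a * (1 / 3 + 4 / 3 * u - 5 / 3 * u ^ 2) ≤ 465 / 1000 := by
    unfold sa
    rw [← hu, div_mul_eq_mul_div, div_le_iff₀ (gg_pos u0 u1)]
    unfold gg
    nlinarith [mul_nonneg u0 (sq_nonneg (u - 43 / 100)), sq_nonneg (u - 43 / 100)]
  have s0 := sa_nonneg ha.le
  have s1 := sa_le_one ha.le
  nlinarith [mul_le_mul_of_nonneg_left (add_le_add h1 (neg_le_neg h2)) s0]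

lemma exists_large {q : ℝ} (q0 : 0 ≤ q) (q1 : q < 1) (C : ℝ) (e : ℕ) {δ : ℝ} (hδ : 0 < δ) :
    ∃ n : ℕ, 1 ≤ n ∧ C * (n ^ e * q ^ n) ≤ δ := by
  have h := tendsto_pow_const_mul_const_pow_of_abs_lt_one e (r := q) (by rwa [abs_of_nonneg q0])
  have h2 := h.const_mul C
  rw [mul_zero] at h2
  obtain ⟨n, hn⟩ := ((h2.eventually (ge_mem_nhds hδ)).and (Filter.eventually_ge_atTop 1)).exists
  exact ⟨n, hn.2, hn.1⟩

end

end Pool.Agent.MP_d802e4_co

end
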